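import Mathlib
import Pool.Agent.H548.WM.Main

/-!
Systems of `k` bilinear forms in `N + N` variables: complete intersections of `k` divisors of type
`(1,1)` in the product of two projective spaces of dimension `N - 1`.  Definitions.
-/

namespace Pool.Agent.H548.BL

open Matrix

/-- The coefficient vectors (in the second variable) of the `k` linear forms `M i (x, ·)`. -/
def rv {R : Type*} [CommRing R] {k N : ℕ} (M : Fin k → Matrix (Fin N) (Fin N) ℤ) (x : Fin N → R)
    (i : Fin k) : Fin N → R := x ᵥ* (M i).map (Int.cast : ℤ → R)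

/-- The coefficient vectors (in the first variable) of the `k` linear forms `M i (·, y)`. -/
def cv {R : Type*} [CommRing R] {k N : ℕ} (M : Fin k → Matrix (Fin N) (Fin N) ℤ) (y : Fin N → R)
    (i : Fin k) : Fin N → R := (M i).map (Int.cast : ℤ → R) *ᵥ y

/-- The `k` bilinear equations: `(x, y)` is a point of the variety `X`. -/
def Inc {R : Type*} [CommRing R] {k N : ℕ} (M : Fin k → Matrix (Fin N) (Fin N) ℤ)
    (x y : Fin N → R) : Prop := ∀ i, x ⬝ᵥ cv M y i = 0

/-- `X` is a smooth complete intersection (Jacobian criterion): at every complex point of `X` the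
gradients of the `k` equations are linearly independent. -/
def Smooth {k N : ℕ} (M : Fin k → Matrix (Fin N) (Fin N) ℤ) : Prop :=
  ∀ x y : Fin N → ℂ, x ≠ 0 → y ≠ 0 → Inc M x y →
    LinearIndependent ℂ fun i => ((cv M y i, rv M x i) : (Fin N → ℂ) × (Fin N → ℂ))

/-- The form `det (s₁ M₁ + ⋯ + s_k M_k)` of degree `N` has only finitely many rational zeros in the
projective space of dimension `k - 1`. -/
def FinZeros {k N : ℕ} (M : Fin k → Matrix (Fin N) (Fin N) ℤ) : Prop :=
  ∃ S : Finset (Fin k → ℚ), ∀ s : Fin k → ℚ, s ≠ 0 →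
    (∑ i, s i • (M i).map (Int.cast : ℤ → ℚ)).det = 0 → ∃ t ∈ S, ∃ c : ℚ, s = c • t

theorem inc_iff_rv {R : Type*} [CommRing R] {k N : ℕ} {M : Fin k → Matrix (Fin N) (Fin N) ℤ}
    {x y : Fin N → R} : Inc M x y ↔ ∀ i, rv M x i ⬝ᵥ y = 0 := by
  unfold Inc rv cv
  simp only [dotProduct_mulVec]

/-- The transposed system. -/
def tr {k N : ℕ} (M : Fin k → Matrix (Fin N) (Fin N) ℤ) : Fin k → Matrix (Fin N) (Fin N) ℤ :=
  fun i => (M i)ᵀ

theorem rv_tr {R : Type*} [CommRing R] {k N : ℕ} (M : Fin k → Matrix (Fin N) (Fin N) ℤ)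
    (x : Fin N → R) : rv (tr M) x = cv M x := by
  funext i
  unfold rv cv tr
  rw [transpose_map, vecMul_transpose]

theorem cv_tr {R : Type*} [CommRing R] {k N : ℕ} (M : Fin k → Matrix (Fin N) (Fin N) ℤ)
    (x : Fin N → R) : cv (tr M) x = rv M x := by
  funext i
  unfold rv cv tr
  rw [transpose_map, mulVec_transpose]

theorem inc_tr {R : Type*} [CommRing R] {k N : ℕ} {M : Fin k → Matrix (Fin N) (Fin N) ℤ}
    {x y : Fin N → R} : Inc (tr M) y x ↔ Inc M x y := by
  rw [inc_iff_rv, rv_tr]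
  unfold Inc
  simp only [dotProduct_comm]

theorem tr_tr {k N : ℕ} (M : Fin k → Matrix (Fin N) (Fin N) ℤ) : tr (tr M) = M := by
  funext i
  unfold tr
  rw [transpose_transpose]

theorem smooth_tr {k N : ℕ} {M : Fin k → Matrix (Fin N) (Fin N) ℤ} (h : Smooth M) :
    Smooth (tr M) := by
  intro x y hx hy hxy
  have h1 := h y x hy hx (inc_tr.1 hxy)
  rw [cv_tr, rv_tr]
  have h2 := h1.map' (LinearEquiv.prodComm ℂ (Fin N → ℂ) (Fin N → ℂ)).toLinearMap
    (LinearEquiv.ker _)
  exact h2

theorem finZeros_tr {k N : ℕ} {M : Fin k → Matrix (Fin N) (Fin N) ℤ} (h : FinZeros M) :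
    FinZeros (tr M) := by
  obtain ⟨S, hS⟩ := h
  refine ⟨S, fun s hs hd => hS s hs ?_⟩
  rw [← det_transpose] at hd
  rw [← hd]
  congr 1
  rw [transpose_sum]
  refine Finset.sum_congr rfl fun i _ => ?_
  unfold tr
  rw [transpose_smul, ← transpose_map, transpose_transpose]

end Pool.Agent.H548.BL
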