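import Mathlib
import Pool.Agent.H548.BL.Stm

/-! Linear families of matrices at a point of maximal rank; the open set is not empty; for `k = 2`
the determinant has finitely many zeros. -/

namespace Pool.Agent.H548.BL

open Module Matrix Topology

/-- At a point where the rank is locally maximal the derivative maps the kernel to the image. -/
theorem first_order {m n : ℕ} (P Q : Matrix (Fin m) (Fin n) ℂ)
    (h : ∀ᶠ t : ℂ in 𝓝 0, (P + t • Q).rank ≤ P.rank) {ξ : Fin m → ℂ} {η : Fin n → ℂ}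
    (hξ : ξ ᵥ* P = 0) (hη : P *ᵥ η = 0) : ξ ⬝ᵥ (Q *ᵥ η) = 0 := by
  by_contra hne
  -- a basis of the range
  set r := P.rank with hr
  obtain ⟨b⟩ : Nonempty (Basis (Fin r) ℂ (LinearMap.range P.mulVecLin)) :=
    ⟨finBasisOfFinrankEq ℂ _ rfl⟩
  have hv : ∀ i, ∃ v : Fin n → ℂ, P *ᵥ v = (b i : Fin m → ℂ) := by
    intro i
    obtain ⟨v, hv⟩ := (b i).2
    exact ⟨v, hv⟩
  choose v hv using hv
  -- the family
  let f : ℂ → Fin (r + 1) → (Fin m → ℂ) := fun t =>
    Fin.cons (Q *ᵥ η) (fun i => (P + t • Q) *ᵥ v i)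
  have hf0 : LinearIndependent ℂ (f 0) := by
    have h1 : f 0 = Fin.cons (Q *ᵥ η) (fun i => (b i : Fin m → ℂ)) := by
      funext j
      refine Fin.cases rfl (fun i => ?_) j
      show (P + (0 : ℂ) • Q) *ᵥ v i = _
      rw [zero_smul, add_zero, hv i]
      rfl
    rw [h1, linearIndependent_finCons]
    constructor
    · have := b.linearIndependent
      exact this.map' (LinearMap.range P.mulVecLin).subtype (Submodule.ker_subtype _)
    · intro hmem
      apply hne
      have h2 : Submodule.span ℂ (Set.range fun i => (b i : Fin m → ℂ)) ≤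
          LinearMap.range P.mulVecLin := by
        rw [Submodule.span_le]
        rintro _ ⟨i, rfl⟩
        exact (b i).2
      obtain ⟨w, hw⟩ := h2 hmem
      rw [Matrix.mulVecLin_apply] at hw
      rw [← hw, dotProduct_mulVec, hξ, zero_dotProduct]
  have hcont : Continuous f := by
    apply continuous_pi
    intro j
    refine Fin.cases ?_ (fun i => ?_) j
    · exact continuous_const
    · show Continuous fun t : ℂ => (P + t • Q) *ᵥ v i
      have : (fun t : ℂ => (P + t • Q) *ᵥ v i) = fun t => P *ᵥ v i + t • (Q *ᵥ v i) := by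
        funext t
        rw [add_mulVec, smul_mulVec]
      rw [this]
      fun_prop
  have hopen := isOpen_setOf_linearIndependent (𝕜 := ℂ) (E := Fin m → ℂ) (ι := Fin (r + 1))
  have hev : ∀ᶠ t : ℂ in 𝓝 0, LinearIndependent ℂ (f t) :=
    hcont.continuousAt.eventually (hopen.eventually_mem hf0)
  have hne0 : ∃ t : ℂ, t ≠ 0 ∧ LinearIndependent ℂ (f t) ∧ (P + t • Q).rank ≤ r := by
    have h3 := (hev.and h)
    have h4 : ∀ᶠ t : ℂ in 𝓝[≠] 0, (LinearIndependent ℂ (f t) ∧ (P + t • Q).rank ≤ r) :=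
      h3.filter_mono nhdsWithin_le_nhds
    have h5 : ∀ᶠ t : ℂ in 𝓝[≠] 0, t ≠ 0 := eventually_mem_nhdsWithin
    obtain ⟨t, ht1, ht2⟩ := (h5.and h4).exists
    exact ⟨t, ht1, ht2⟩
  obtain ⟨t, ht0, hli, hrk⟩ := hne0
  -- all vectors are in the range
  have hin : ∀ j, f t j ∈ LinearMap.range (P + t • Q).mulVecLin := by
    intro j
    refine Fin.cases ?_ (fun i => ?_) j
    · refine ⟨t⁻¹ • η, ?_⟩
      rw [Matrix.mulVecLin_apply]
      show (P + t • Q) *ᵥ (t⁻¹ • η) = Q *ᵥ η
      rw [mulVec_smul, add_mulVec, hη, zero_add, smul_mulVec, smul_smul, inv_mul_cancel₀ ht0,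
        one_smul]
    · exact ⟨v i, rfl⟩
  have h6 : LinearIndependent ℂ (fun j => (⟨f t j, hin j⟩ :
      LinearMap.range (P + t • Q).mulVecLin)) :=
    LinearIndependent.of_comp (LinearMap.range (P + t • Q).mulVecLin).subtype hli
  have h7 := h6.fintype_card_le_finrank
  rw [Fintype.card_fin] at h7
  have h8 : finrank ℂ (LinearMap.range (P + t • Q).mulVecLin) = (P + t • Q).rank := rfl
  omega

end Pool.Agent.H548.BL
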