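import Mathlib
import Pool.Agent.H548.BL.Fo

/-! The open set is not empty; for `k = 2` the determinant has finitely many zeros. -/

namespace Pool.Agent.H548.BL

open Module Matrix Topology

theorem exists_max {α : Type*} (S : Set α) (hS : S.Nonempty) (f : α → ℕ) (B : ℕ)
    (hB : ∀ a, f a ≤ B) : ∃ a ∈ S, ∀ b ∈ S, f b ≤ f a := by
  have h1 : (f '' S).Nonempty := hS.image f
  have h2 : BddAbove (f '' S) := ⟨B, by rintro _ ⟨a, -, rfl⟩; exact hB a⟩
  obtain ⟨a, ha, hfa⟩ := Nat.sSup_mem h1 h2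
  refine ⟨a, ha, fun b hb => ?_⟩
  rw [hfa]
  exact le_csSup h2 ⟨b, hb, rfl⟩

/-- The matrix with the columns `cv M y i`. -/
noncomputable def CV {k N : ℕ} (M : Fin k → Matrix (Fin N) (Fin N) ℤ) (y : Fin N → ℂ) :
    Matrix (Fin N) (Fin k) ℂ := Matrix.of fun p i => cv M y i p

theorem CV_mulVec {k N : ℕ} (M : Fin k → Matrix (Fin N) (Fin N) ℤ) (y : Fin N → ℂ)
    (s : Fin k → ℂ) : CV M y *ᵥ s = ∑ i, s i • cv M y i := by
  funext p
  rw [Finset.sum_apply]
  unfold CV mulVec dotProduct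
  refine Finset.sum_congr rfl fun i _ => ?_
  simp [mul_comm]

theorem vecMul_CV {k N : ℕ} (M : Fin k → Matrix (Fin N) (Fin N) ℤ) (y ξ : Fin N → ℂ) :
    ξ ᵥ* CV M y = fun i => ξ ⬝ᵥ cv M y i := rfl

theorem CV_add {k N : ℕ} (M : Fin k → Matrix (Fin N) (Fin N) ℤ) (y y' : Fin N → ℂ) (t : ℂ) :
    CV M (y + t • y') = CV M y + t • CV M y' := by
  ext p i
  unfold CV cv
  simp only [Matrix.of_apply, Matrix.add_apply, Matrix.smul_apply, smul_eq_mul]
  rw [mulVec_add, mulVec_smul]
  rfl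

theorem CV_zero {k N : ℕ} (M : Fin k → Matrix (Fin N) (Fin N) ℤ) : CV M 0 = 0 := by
  ext p i
  unfold CV cv
  simp

theorem dot_cv {k N : ℕ} (M : Fin k → Matrix (Fin N) (Fin N) ℤ) (x y : Fin N → ℂ) (i : Fin k) :
    x ⬝ᵥ cv M y i = rv M x i ⬝ᵥ y := by
  unfold cv rv
  rw [dotProduct_mulVec]

theorem dep_cv {k N : ℕ} {M : Fin k → Matrix (Fin N) (Fin N) ℤ} {y : Fin N → ℂ}
    (h : ¬ LinearIndependent ℂ (cv M y)) : ∃ s : Fin k → ℂ, s ≠ 0 ∧ CV M y *ᵥ s = 0 := by
  rw [Fintype.linearIndependent_iff] at h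
  push Not at h
  obtain ⟨g, hg, i, hi⟩ := h
  refine ⟨g, fun h0 => hi (congrFun h0 i), ?_⟩
  rw [CV_mulVec]
  exact hg

/-- A contradiction with the smoothness. -/
theorem not_smooth {k N : ℕ} {M : Fin k → Matrix (Fin N) (Fin N) ℤ} (hs : Smooth M)
    {x y : Fin N → ℂ} (hx : x ≠ 0) (hy : y ≠ 0) (hinc : Inc M x y) {s : Fin k → ℂ}
    (h1 : ∑ i, s i • cv M y i = 0) (h2 : ∑ i, s i • rv M x i = 0) : s = 0 := by
  have h3 := hs x y hx hy hinc
  rw [Fintype.linearIndependent_iff] at h3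
  funext i
  refine h3 s ?_ i
  rw [Prod.ext_iff]
  constructor
  · rw [Prod.fst_sum]
    simp only [Prod.smul_fst, Prod.fst_zero]
    exact h1
  · rw [Prod.snd_sum]
    simp only [Prod.smul_snd, Prod.snd_zero]
    exact h2

theorem exists_inc {k N : ℕ} (M : Fin k → Matrix (Fin N) (Fin N) ℤ) (hkN : k < N)
    (y : Fin N → ℂ) : ∃ x : Fin N → ℂ, x ≠ 0 ∧ Inc M x y := by
  have h := LinearMap.ker_ne_bot_of_finrank_lt (f := (CV M y)ᵀ.mulVecLin) (by
    rw [finrank_fintype_fun_eq_card, finrank_fintype_fun_eq_card, Fintype.card_fin,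
      Fintype.card_fin]
    exact hkN)
  obtain ⟨x, hx, hx0⟩ := Submodule.exists_mem_ne_zero_of_ne_bot h
  refine ⟨x, hx0, fun i => ?_⟩
  rw [LinearMap.mem_ker, Matrix.mulVecLin_apply, mulVec_transpose] at hx
  exact congrFun hx i

/-- There is a nondegenerate `y`. -/
theorem exists_y {k N : ℕ} {M : Fin k → Matrix (Fin N) (Fin N) ℤ} (hs : Smooth M)
    (hkN : k < N) : ∃ y : Fin N → ℂ, y ≠ 0 ∧ LinearIndependent ℂ (cv M y) := by
  have hS : ({y : Fin N → ℂ | y ≠ 0}).Nonempty := by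
    refine ⟨fun _ => 1, ?_⟩
    intro h
    have := congrFun h ⟨0, by omega⟩
    simp at this
  obtain ⟨y, hy, hmax⟩ := exists_max {y : Fin N → ℂ | y ≠ 0} hS (fun y => (CV M y).rank) N
    (fun y => by simpa using (CV M y).rank_le_height)
  have hmax' : ∀ y', (CV M y').rank ≤ (CV M y).rank := by
    intro y'
    by_cases h : y' = 0
    · rw [h, CV_zero, rank_zero]
      omega
    · exact hmax y' h
  refine ⟨y, hy, ?_⟩
  by_contra hdep
  obtain ⟨s, hs0, hsy⟩ := dep_cv hdep
  obtain ⟨ξ, hξ0, hξ⟩ := exists_inc M hkN y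
  have hrel : ∀ y' : Fin N → ℂ, (∑ i, s i • rv M ξ i) ⬝ᵥ y' = 0 := by
    intro y'
    have h1 := first_order (CV M y) (CV M y') (Filter.Eventually.of_forall fun t => by
      rw [← CV_add]
      exact hmax' _) (ξ := ξ) (η := s) (by
        rw [vecMul_CV]
        funext i
        exact hξ i) hsy
    rw [CV_mulVec, dotProduct_sum] at h1
    rw [sum_dotProduct, ← h1]
    refine Finset.sum_congr rfl fun i _ => ?_
    rw [smul_dotProduct, dotProduct_smul, dot_cv]
  have h2 : ∑ i, s i • rv M ξ i = 0 := dotProduct_eq_zero _ hrel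
  rw [CV_mulVec] at hsy
  exact hs0 (not_smooth hs hξ0 hy hξ hsy h2)

/-- **The open set is not empty.** -/
theorem nonempty {k N : ℕ} {M : Fin k → Matrix (Fin N) (Fin N) ℤ} (hs : Smooth M)
    (hk : 1 ≤ k) (hkN : 2 * k ≤ N) : ∃ x y : Fin N → ℂ, x ≠ 0 ∧ y ≠ 0 ∧ Inc M x y ∧
      LinearIndependent ℂ (rv M x) ∧ LinearIndependent ℂ (cv M y) := by
  obtain ⟨y, hy, hyi⟩ := exists_y hs (by omega)
  -- maximal rank over the fibre of `y`
  have hS : ({x : Fin N → ℂ | x ≠ 0 ∧ Inc M x y}).Nonempty := exists_inc M (by omega) y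
  obtain ⟨x, ⟨hx, hxy⟩, hmax⟩ := exists_max {x : Fin N → ℂ | x ≠ 0 ∧ Inc M x y} hS
    (fun x => (CV (tr M) x).rank) N (fun x => by simpa using (CV (tr M) x).rank_le_height)
  have hmax' : ∀ x', Inc M x' y → (CV (tr M) x').rank ≤ (CV (tr M) x).rank := by
    intro x' hx'
    by_cases h : x' = 0
    · rw [h, CV_zero, rank_zero]
      omega
    · exact hmax x' ⟨h, hx'⟩
  refine ⟨x, y, hx, hy, hxy, ?_, hyi⟩
  by_contra hdep
  rw [← cv_tr] at hdep
  obtain ⟨s, hs0, hsx⟩ := dep_cv hdep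
  -- the kernel
  set Λ := LinearMap.ker ((CV (tr M) x)ᵀ).mulVecLin with hΛ
  have hmemΛ : ∀ η, η ∈ Λ ↔ ∀ i, rv M x i ⬝ᵥ η = 0 := by
    intro η
    rw [hΛ, LinearMap.mem_ker, Matrix.mulVecLin_apply, mulVec_transpose, vecMul_CV, cv_tr]
    constructor
    · intro h i
      rw [dotProduct_comm]
      exact congrFun h i
    · intro h
      funext i
      rw [dotProduct_comm]
      exact h i
  have hrank : (CV (tr M) x).rank + 1 ≤ k := by
    have h1 := LinearMap.finrank_range_add_finrank_ker (CV (tr M) x).mulVecLin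
    rw [finrank_fintype_fun_eq_card, Fintype.card_fin] at h1
    have h2 : 0 < finrank ℂ (LinearMap.ker (CV (tr M) x).mulVecLin) := by
      rw [Nat.pos_iff_ne_zero]
      intro h
      rw [Submodule.finrank_eq_zero] at h
      apply hs0
      have h3 : s ∈ LinearMap.ker (CV (tr M) x).mulVecLin := by
        rw [LinearMap.mem_ker, Matrix.mulVecLin_apply]
        exact hsx
      rw [h] at h3
      simpa using h3
    have h4 : finrank ℂ (LinearMap.range (CV (tr M) x).mulVecLin) = (CV (tr M) x).rank := rfl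
    omega
  have hdimΛ : k < finrank ℂ Λ := by
    have h1 := LinearMap.finrank_range_add_finrank_ker ((CV (tr M) x)ᵀ).mulVecLin
    rw [finrank_fintype_fun_eq_card, Fintype.card_fin] at h1
    have h2 : finrank ℂ (LinearMap.range ((CV (tr M) x)ᵀ).mulVecLin) = (CV (tr M) x).rank := by
      have h3 : ((CV (tr M) x)ᵀ).rank = (CV (tr M) x).rank := rank_transpose _
      exact h3
    have h5 : finrank ℂ Λ = finrank ℂ (LinearMap.ker ((CV (tr M) x)ᵀ).mulVecLin) := rfl
    omega
  -- the images are in the span of the columns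
  set V0 := Submodule.span ℂ (Set.range (cv M y)) with hV0
  have himg : ∀ η ∈ Λ, CV M η *ᵥ s ∈ V0 := by
    intro η hη
    by_contra hnot
    obtain ⟨φ, hφ, hφ0⟩ := Submodule.exists_dual_map_eq_bot_of_notMem hnot inferInstance
    set x' : Fin N → ℂ := fun p => φ (Pi.single p 1) with hx'
    have hφx : ∀ w : Fin N → ℂ, φ w = x' ⬝ᵥ w := by
      intro w
      have : w = ∑ p, w p • (Pi.single p (1 : ℂ) : Fin N → ℂ) := by
        funext q
        rw [Finset.sum_apply]
        simp [Pi.single_apply]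
      conv_lhs => rw [this]
      rw [map_sum]
      unfold dotProduct
      refine Finset.sum_congr rfl fun p _ => ?_
      rw [map_smul, smul_eq_mul, mul_comm]
    have hx'y : Inc M x' y := by
      intro i
      rw [← hφx]
      have h1 : φ (cv M y i) ∈ Submodule.map φ V0 :=
        ⟨cv M y i, Submodule.subset_span ⟨i, rfl⟩, rfl⟩
      rw [hφ0] at h1
      simpa using h1
    have h1 := first_order (CV (tr M) x) (CV (tr M) x') (by
      refine Filter.Eventually.of_forall fun t => ?_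
      rw [← CV_add]
      apply hmax'
      intro i
      rw [add_dotProduct, smul_dotProduct, hxy i, hx'y i]
      simp) (ξ := η) (η := s) (by
        rw [vecMul_CV, cv_tr]
        funext i
        rw [dotProduct_comm]
        exact (hmemΛ η).1 hη i) hsx
    apply hφ
    rw [hφx, CV_mulVec, dotProduct_sum]
    rw [CV_mulVec, dotProduct_sum] at h1
    rw [← h1]
    refine Finset.sum_congr rfl fun i _ => ?_
    rw [dotProduct_smul, dotProduct_smul, dot_cv, cv_tr, dotProduct_comm (rv M x' i) η]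
  let T : Λ →ₗ[ℂ] V0 :=
    { toFun := fun η => ⟨CV M η.1 *ᵥ s, himg η.1 η.2⟩
      map_add' := by
        intro a b
        apply Subtype.ext
        show CV M (a.1 + b.1) *ᵥ s = CV M a.1 *ᵥ s + CV M b.1 *ᵥ s
        have := CV_add M a.1 b.1 1
        rw [one_smul, one_smul] at this
        rw [this, add_mulVec]
      map_smul' := by
        intro c a
        apply Subtype.ext
        show CV M (c • a.1) *ᵥ s = c • (CV M a.1 *ᵥ s)
        have := CV_add M 0 a.1 c
        rw [zero_add, CV_zero, zero_add] at this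
        rw [this, smul_mulVec] }
  have hdimV : finrank ℂ V0 ≤ k := by
    have := finrank_range_le_card (R := ℂ) (cv M y)
    rwa [Fintype.card_fin] at this
  have hker := LinearMap.ker_ne_bot_of_finrank_lt (f := T) (by omega)
  obtain ⟨η, hη, hη0⟩ := Submodule.exists_mem_ne_zero_of_ne_bot hker
  have hη1 : CV M η.1 *ᵥ s = 0 := by
    rw [LinearMap.mem_ker] at hη
    exact congrArg Subtype.val hη
  have hη2 : η.1 ≠ 0 := fun h => hη0 (Subtype.ext h)
  rw [CV_mulVec] at hη1 hsx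
  rw [cv_tr] at hsx
  exact hs0 (not_smooth hs hx hη2 (inc_iff_rv.2 ((hmemΛ η.1).1 η.2)) hη1 hsx)

/-- The matrices of the pencil, over a field. -/
noncomputable def pm {K : Type*} [Field K] {N : ℕ} (M : Fin 2 → Matrix (Fin N) (Fin N) ℤ)
    (s : Fin 2 → K) : Matrix (Fin N) (Fin N) K := ∑ i, s i • (M i).map (Int.cast : ℤ → K)

theorem pm_mulVec {N : ℕ} (M : Fin 2 → Matrix (Fin N) (Fin N) ℤ) (s : Fin 2 → ℂ)
    (v : Fin N → ℂ) : pm M s *ᵥ v = ∑ i, s i • cv M v i := by
  unfold pm cv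
  rw [Matrix.sum_mulVec]
  refine Finset.sum_congr rfl fun i _ => ?_
  rw [smul_mulVec]

theorem vecMul_pm {N : ℕ} (M : Fin 2 → Matrix (Fin N) (Fin N) ℤ) (s : Fin 2 → ℂ)
    (v : Fin N → ℂ) : v ᵥ* pm M s = ∑ i, s i • rv M v i := by
  unfold pm rv
  rw [Matrix.vecMul_sum]
  refine Finset.sum_congr rfl fun i _ => ?_
  rw [vecMul_smul]

theorem pm_add {N : ℕ} (M : Fin 2 → Matrix (Fin N) (Fin N) ℤ) (s w : Fin 2 → ℂ) (t : ℂ) :
    pm M (s + t • w) = pm M s + t • pm M w := by
  unfold pm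
  rw [Finset.smul_sum, ← Finset.sum_add_distrib]
  refine Finset.sum_congr rfl fun i _ => ?_
  rw [Pi.add_apply, Pi.smul_apply, add_smul, smul_assoc]

/-- The determinant does not vanish identically. -/
theorem exists_det {N : ℕ} {M : Fin 2 → Matrix (Fin N) (Fin N) ℤ} (hs : Smooth M) :
    ∃ s : Fin 2 → ℂ, s 0 ≠ 0 ∧ (pm M s).det ≠ 0 := by
  by_contra hcon
  push Not at hcon
  obtain ⟨s, hs0, hmax⟩ := exists_max {s : Fin 2 → ℂ | s 0 ≠ 0} ⟨fun _ => 1, by simp⟩
    (fun s => (pm M s).rank) N (fun s => by simpa using (pm M s).rank_le_height)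
  have hs0' : s 0 ≠ 0 := hs0
  have hdet := hcon s hs0
  obtain ⟨η, hη0, hη⟩ := Matrix.exists_mulVec_eq_zero_iff.2 hdet
  obtain ⟨ξ, hξ0, hξ⟩ := Matrix.exists_vecMul_eq_zero_iff.2 hdet
  have hev : ∀ w : Fin 2 → ℂ, ∀ᶠ t : ℂ in 𝓝 0, (pm M s + t • pm M w).rank ≤ (pm M s).rank := by
    intro w
    have h1 : ∀ᶠ t : ℂ in 𝓝 0, (s + t • w) 0 ≠ 0 := by
      have h2 : Continuous fun t : ℂ => (s + t • w) 0 := by
        simp only [Pi.add_apply, Pi.smul_apply, smul_eq_mul]
        fun_prop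
      apply h2.continuousAt.eventually_ne
      simpa using hs0'
    filter_upwards [h1] with t ht
    rw [← pm_add]
    exact hmax _ ht
  have hinc : Inc M ξ η := by
    intro i
    have h1 := first_order (pm M s) (pm M (Pi.single i 1)) (hev _) hξ hη
    have h2 : pm M (Pi.single i (1 : ℂ)) *ᵥ η = cv M η i := by
      rw [pm_mulVec]
      funext p
      rw [Finset.sum_apply]
      simp [Pi.single_apply]
    rw [h2] at h1
    exact h1
  rw [pm_mulVec] at hη
  rw [vecMul_pm] at hξ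
  have := not_smooth hs hξ0 hη0 hinc hη hξ
  exact hs0' (congrFun this 0)

open Polynomial in
/-- For `k = 2` the determinant has finitely many zeros. -/
theorem finZeros_two {N : ℕ} {M : Fin 2 → Matrix (Fin N) (Fin N) ℤ} (hs : Smooth M) :
    FinZeros M := by
  classical
  set p : ℤ[X] := ((M 0).map (C : ℤ →+* ℤ[X]) + (X : ℤ[X]) • (M 1).map (C : ℤ →+* ℤ[X])).det
    with hp
  have heval : ∀ {K : Type} [Field K] (t : K), p.eval₂ (Int.castRingHom K) t =
      (pm M ![1, t]).det := by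
    intro K _ t
    have h1 : p.eval₂ (Int.castRingHom K) t = (eval₂RingHom (Int.castRingHom K) t) p := rfl
    rw [h1, hp, RingHom.map_det]
    congr 1
    ext i j
    unfold pm
    rw [RingHom.mapMatrix_apply]
    have h3 : ∀ n : ℤ, eval₂ (Int.castRingHom K) t (n : ℤ[X]) = (n : K) := fun n =>
      map_intCast (eval₂RingHom (Int.castRingHom K) t) n
    simp [Fin.sum_univ_two, h3]
  have hscale : ∀ {K : Type} [Field K] (s : Fin 2 → K), s 0 ≠ 0 →
      pm M s = s 0 • pm M ![1, s 1 / s 0] := by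
    intro K _ s hs0
    unfold pm
    rw [Fin.sum_univ_two, Fin.sum_univ_two, smul_add, smul_smul, smul_smul]
    simp only [Matrix.cons_val_zero, Matrix.cons_val_one, mul_one]
    rw [mul_div_cancel₀ _ hs0]
  have hp0 : p ≠ 0 := by
    intro h0
    obtain ⟨s, hs0, hdet⟩ := exists_det hs
    apply hdet
    rw [hscale s hs0, det_smul, ← heval, h0]
    simp
  set q : ℚ[X] := p.map (Int.castRingHom ℚ) with hq
  have hq0 : q ≠ 0 := by
    rw [hq, Polynomial.map_ne_zero_iff (RingHom.injective_int _)]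
    exact hp0
  refine ⟨(q.roots.toFinset.image fun t => ![1, t]) ∪ {![0, 1]}, ?_⟩
  intro s hs0 hdet
  have hdet' : (pm M s).det = 0 := hdet
  by_cases h0 : s 0 = 0
  · refine ⟨![0, 1], by simp, s 1, ?_⟩
    funext i
    fin_cases i
    · simpa using h0
    · simp
  · refine ⟨![1, s 1 / s 0], ?_, s 0, ?_⟩
    · rw [Finset.mem_union, Finset.mem_image]
      left
      refine ⟨s 1 / s 0, ?_, rfl⟩
      rw [Multiset.mem_toFinset, mem_roots hq0, IsRoot.def, hq, eval_map, heval]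
      rw [hscale s h0, det_smul] at hdet'
      rcases mul_eq_zero.1 hdet' with h | h
      · exact absurd (IsReduced.eq_zero _ ⟨_, h⟩) h0
      · exact h
    · funext i
      fin_cases i
      · simp
      · show s 1 = s 0 * (s 1 / s 0)
        field_simp

end Pool.Agent.H548.BL
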