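import Mathlib
import Pool.Agent.H548.BL.Stm

/-! Packing: the number of the points of a lattice in large and in small boxes. -/

namespace Pool.Agent.H548.BL

open Finset MeasureTheory Metric Module
open scoped ENNReal Topology

/-- Separated points in a ball of a real normed space of finite dimension. -/
theorem sep_card {E : Type*} [NormedAddCommGroup E] [NormedSpace ℝ E] [FiniteDimensional ℝ E]
    (s : Finset E) (R δ : ℝ) (hδ : 0 < δ) (hR : 0 ≤ R) (hs : ∀ c ∈ s, ‖c‖ ≤ R)
    (h : ∀ c ∈ s, ∀ d ∈ s, c ≠ d → δ ≤ ‖c - d‖) :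
    (s.card : ℝ) ≤ (2 * R / δ + 1) ^ finrank ℝ E := by
  borelize E
  let μ : Measure E := Measure.addHaar
  have hδ2 : 0 < δ / 2 := by positivity
  have ρpos : 0 < R + δ / 2 := by positivity
  set A := ⋃ c ∈ s, ball (c : E) (δ / 2) with hA
  have D : Set.Pairwise (s : Set E) (Function.onFun Disjoint fun c => ball (c : E) (δ / 2)) := by
    rintro c hc d hd hcd
    apply ball_disjoint_ball
    rw [dist_eq_norm]
    have := h c hc d hd hcd
    linarith
  have A_subset : A ⊆ ball (0 : E) (R + δ / 2) := by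
    refine Set.iUnion₂_subset fun x hx => ?_
    apply ball_subset_ball'
    rw [dist_zero_right]
    have := hs x hx
    linarith
  have I : (s.card : ℝ≥0∞) * ENNReal.ofReal ((δ / 2) ^ finrank ℝ E) * μ (ball 0 1) ≤
      ENNReal.ofReal ((R + δ / 2) ^ finrank ℝ E) * μ (ball 0 1) :=
    calc
      (s.card : ℝ≥0∞) * ENNReal.ofReal ((δ / 2) ^ finrank ℝ E) * μ (ball 0 1) = μ A := by
        rw [hA, measure_biUnion_finset D fun c _ => measurableSet_ball]
        simp only [μ.addHaar_ball_of_pos _ hδ2]
        simp only [Finset.sum_const, nsmul_eq_mul, mul_assoc]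
      _ ≤ μ (ball (0 : E) (R + δ / 2)) := measure_mono A_subset
      _ = ENNReal.ofReal ((R + δ / 2) ^ finrank ℝ E) * μ (ball 0 1) := by
        simp only [μ.addHaar_ball_of_pos _ ρpos]
  have J : (s.card : ℝ≥0∞) * ENNReal.ofReal ((δ / 2) ^ finrank ℝ E) ≤
      ENNReal.ofReal ((R + δ / 2) ^ finrank ℝ E) :=
    (ENNReal.mul_le_mul_iff_left (measure_ball_pos _ _ zero_lt_one).ne' measure_ball_lt_top.ne).1 I
  have K : (s.card : ℝ) * (δ / 2) ^ finrank ℝ E ≤ (R + δ / 2) ^ finrank ℝ E := by
    have := ENNReal.toReal_le_of_le_ofReal (pow_nonneg ρpos.le _) J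
    rwa [ENNReal.toReal_mul, ENNReal.toReal_natCast, ENNReal.toReal_ofReal (by positivity)] at this
  have e : (2 * R / δ + 1) = (R + δ / 2) / (δ / 2) := by
    field_simp
  rw [e, div_pow, le_div_iff₀ (by positivity)]
  exact K

/-- The real vector of an integer vector. -/
def rc {N : ℕ} (v : Fin N → ℤ) : Fin N → ℝ := fun i => (v i : ℝ)

theorem norm_rc {N : ℕ} (v : Fin N → ℤ) : ‖rc v‖ = (WM.ht v : ℝ) := by
  apply le_antisymm
  · rw [pi_norm_le_iff_of_nonneg (by positivity)]
    intro i
    unfold rc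
    rw [Real.norm_eq_abs]
    have := WM.le_ht' v i
    exact_mod_cast this
  · rcases Nat.eq_zero_or_pos N with h | h
    · subst h
      have : WM.ht v = 0 := by
        have := WM.ht_le (v := v) (X := 0) (fun i => i.elim0)
        omega
      rw [this]
      simp
    · obtain ⟨i, hi⟩ := WM.exists_ht h v
      have h1 := norm_le_pi_norm (rc v) i
      unfold rc at h1 ⊢
      rw [Real.norm_eq_abs] at h1
      have h2 : ((|v i| : ℤ) : ℝ) = (WM.ht v : ℝ) := by rw [hi]; rfl
      rw [← h2]
      push_cast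
      exact h1

theorem rc_sub {N : ℕ} (v w : Fin N → ℤ) : rc (v - w) = rc v - rc w := by
  funext i
  simp [rc]

theorem rc_inj {N : ℕ} {v w : Fin N → ℤ} (h : rc v = rc w) : v = w := by
  funext i
  have := congrFun h i
  unfold rc at this
  exact_mod_cast this

open Classical in
/-- The comparison of the numbers of lattice points in two boxes. -/
theorem doubling {N b : ℕ} (Λ : AddSubgroup (Fin N → ℤ)) (V : Submodule ℝ (Fin N → ℝ))
    (hV : finrank ℝ V ≤ b) (hΛ : ∀ v ∈ Λ, rc v ∈ V) (B ρ : ℕ) (hρ : 1 ≤ ρ) (hB : ρ ≤ B) :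
    (((WM.bx N B).filter (· ∈ Λ)).card : ℝ) ≤
      (3 * B / ρ) ^ b * (((WM.bx N ρ).filter (· ∈ Λ)).card : ℝ) := by
  set G := (WM.bx N B).filter (· ∈ Λ) with hG
  set Sm := (WM.bx N ρ).filter (· ∈ Λ) with hSm
  have hρ0 : (0 : ℝ) < ρ := by exact_mod_cast hρ
  have hB0 : (0 : ℝ) < B := by exact_mod_cast (by omega : 0 < B)
  -- separated subsets
  set Q : Finset (Finset (Fin N → ℤ)) := G.powerset.filter
    fun P => ∀ c ∈ P, ∀ d ∈ P, c ≠ d → ρ ≤ WM.ht (c - d) with hQ
  have hQne : Q.Nonempty := ⟨∅, by rw [hQ, mem_filter]; simp⟩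
  obtain ⟨P, hP, hmax⟩ := Finset.exists_max_image Q Finset.card hQne
  rw [hQ, mem_filter, mem_powerset] at hP
  obtain ⟨hPG, hPs⟩ := hP
  -- covering
  have hcov : G ⊆ P.biUnion fun p => Sm.image fun u => p + u := by
    intro v hv
    rw [mem_biUnion]
    by_contra hcon
    push Not at hcon
    have hfar : ∀ p ∈ P, ρ ≤ WM.ht (v - p) := by
      intro p hp
      by_contra hlt
      apply hcon p hp
      rw [mem_image]
      refine ⟨v - p, ?_, by abel⟩
      rw [hSm, mem_filter, WM.mem_bx]
      refine ⟨by omega, ?_⟩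
      have h1 := hPG hp
      rw [hG, mem_filter] at h1 hv
      exact Λ.sub_mem hv.2 h1.2
    have hvP : v ∉ P := by
      intro h
      have h1 := hfar v h
      rw [sub_self] at h1
      have h2 : WM.ht (0 : Fin N → ℤ) ≤ 0 := WM.ht_le (by intro i; simp)
      omega
    have h1 : insert v P ∈ Q := by
      rw [hQ, mem_filter, mem_powerset]
      refine ⟨insert_subset hv hPG, ?_⟩
      intro c hc d hd hcd
      rw [mem_insert] at hc hd
      rcases hc with rfl | hc <;> rcases hd with rfl | hd
      · exact absurd rfl hcd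
      · exact hfar d hd
      · have h3 := hfar c hc
        have h4 : WM.ht (c - d) = WM.ht (d - c) := by
          unfold WM.ht
          congr 1
          funext i
          simp only [Pi.sub_apply]
          omega
        rw [h4]
        exact h3
      · exact hPs c hc d hd hcd
    have h2 := hmax _ h1
    rw [card_insert_of_notMem hvP] at h2
    omega
  -- the number of separated points
  have hPc : (P.card : ℝ) ≤ (3 * B / ρ) ^ b := by
    have hmem : ∀ p ∈ P, rc p ∈ V := by
      intro p hp
      have h1 := hPG hp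
      rw [hG, mem_filter] at h1
      exact hΛ p h1.2
    set s : Finset V := P.attach.image fun p => ⟨rc p.1, hmem p.1 p.2⟩ with hs
    have hsc : s.card = P.card := by
      rw [hs, card_image_of_injective, card_attach]
      intro p q hpq
      simp only [Subtype.mk.injEq] at hpq
      exact Subtype.ext (rc_inj hpq)
    have h1 := sep_card s (B : ℝ) (ρ : ℝ) hρ0 hB0.le (by
      intro c hc
      rw [hs, mem_image] at hc
      obtain ⟨p, -, rfl⟩ := hc
      rw [Submodule.coe_norm]
      show ‖rc p.1‖ ≤ _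
      rw [norm_rc]
      have h2 := hPG p.2
      rw [hG, mem_filter, WM.mem_bx] at h2
      exact_mod_cast h2.1) (by
      intro c hc d hd hcd
      rw [hs, mem_image] at hc hd
      obtain ⟨p, -, rfl⟩ := hc
      obtain ⟨q, -, rfl⟩ := hd
      rw [Submodule.coe_norm]
      show (ρ : ℝ) ≤ ‖rc p.1 - rc q.1‖
      rw [← rc_sub, norm_rc]
      have h3 : p.1 ≠ q.1 := by
        intro h
        apply hcd
        simp [h]
      exact_mod_cast hPs p.1 p.2 q.1 q.2 h3)
    rw [hsc] at h1
    have hq : (1 : ℝ) ≤ B / ρ := by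
      rw [le_div_iff₀ hρ0, one_mul]
      exact_mod_cast hB
    calc (P.card : ℝ) ≤ (2 * B / ρ + 1) ^ finrank ℝ V := h1
      _ ≤ (3 * B / ρ) ^ finrank ℝ V := by
          gcongr
          have : (3 * B / ρ : ℝ) = 2 * B / ρ + B / ρ := by ring
          rw [this]
          linarith
      _ ≤ (3 * B / ρ) ^ b := by
          apply pow_le_pow_right₀ _ hV
          have : (3 * B / ρ : ℝ) = 3 * (B / ρ) := by ring
          rw [this]
          linarith
  calc (G.card : ℝ) ≤ ((P.biUnion fun p => Sm.image fun u => p + u).card : ℝ) := by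
        exact_mod_cast card_le_card hcov
    _ ≤ ((∑ p ∈ P, (Sm.image fun u => p + u).card : ℕ) : ℝ) := by
        exact_mod_cast card_biUnion_le
    _ ≤ ((∑ p ∈ P, Sm.card : ℕ) : ℝ) := by
        exact_mod_cast Finset.sum_le_sum fun p _ => card_image_le
    _ = (P.card : ℝ) * Sm.card := by
        rw [Finset.sum_const, smul_eq_mul]
        push_cast
        ring
    _ ≤ (3 * B / ρ) ^ b * (Sm.card : ℝ) := by
        gcongr

end Pool.Agent.H548.BL
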