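import Mathlib
import Pool.Agent.H548.BL.Pack

/-! The lattices in the fibres, and the degenerate vectors. -/

namespace Pool.Agent.H548.BL

open Finset Module Matrix
open Pool.Agent.H548.WM (ht bx mem_bx)

/-- The real vectors orthogonal to integer vectors `w i`. -/
noncomputable def orth {ι : Type*} [Fintype ι] {N : ℕ} (w : ι → Fin N → ℤ) :
    Submodule ℝ (Fin N → ℝ) :=
  LinearMap.ker (Matrix.mulVecLin (Matrix.of fun i => rc (w i)))

theorem mem_orth {ι : Type*} [Fintype ι] {N : ℕ} {w : ι → Fin N → ℤ} {v : Fin N → ℝ} :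
    v ∈ orth w ↔ ∀ i, rc (w i) ⬝ᵥ v = 0 := by
  unfold orth
  rw [LinearMap.mem_ker, Matrix.mulVecLin_apply]
  constructor
  · intro h i
    exact congrFun h i
  · intro h
    funext i
    exact h i

theorem finrank_orth {ι : Type*} [Fintype ι] {N : ℕ} {w : ι → Fin N → ℤ}
    (h : LinearIndependent ℤ w) : finrank ℝ (orth w) ≤ N - Fintype.card ι := by
  have h1 : LinearIndependent ℝ (fun i => rc (w i)) :=
    (linearIndependent_algebraMap_comp_iff (R := ℤ) (S := ℝ) (v := w)).2 h
  have h2 : (Matrix.of fun i => rc (w i)).rank = Fintype.card ι :=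
    LinearIndependent.rank_matrix h1
  have h3 := LinearMap.finrank_range_add_finrank_ker (Matrix.mulVecLin (Matrix.of fun i => rc (w i)))
  rw [finrank_fintype_fun_eq_card, Fintype.card_fin] at h3
  have h4 : finrank ℝ (LinearMap.range (Matrix.mulVecLin (Matrix.of fun i => rc (w i)))) =
    Fintype.card ι := h2
  unfold orth
  omega

theorem rc_dot {N : ℕ} (v w : Fin N → ℤ) : rc v ⬝ᵥ rc w = ((v ⬝ᵥ w : ℤ) : ℝ) := by
  unfold rc dotProduct
  push_cast
  rfl

/-- The lattice of the integer vectors orthogonal to integer vectors `w i`. -/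
def lat {ι : Type*} {N : ℕ} (w : ι → Fin N → ℤ) : AddSubgroup (Fin N → ℤ) where
  carrier := {v | ∀ i, w i ⬝ᵥ v = 0}
  add_mem' := by
    intro a b ha hb i
    rw [dotProduct_add, ha i, hb i, add_zero]
  zero_mem' := by
    intro i
    exact dotProduct_zero _
  neg_mem' := by
    intro a ha i
    rw [dotProduct_neg, ha i, neg_zero]

theorem mem_lat {ι : Type*} {N : ℕ} {w : ι → Fin N → ℤ} {v : Fin N → ℤ} :
    v ∈ lat w ↔ ∀ i, w i ⬝ᵥ v = 0 := Iff.rfl

open Classical in
theorem lat_doubling {ι : Type*} [Fintype ι] {N : ℕ} {w : ι → Fin N → ℤ}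
    (h : LinearIndependent ℤ w) (B ρ : ℕ) (hρ : 1 ≤ ρ) (hB : ρ ≤ B) :
    (((bx N B).filter (· ∈ lat w)).card : ℝ) ≤
      (3 * B / ρ) ^ (N - Fintype.card ι) * (((bx N ρ).filter (· ∈ lat w)).card : ℝ) := by
  refine doubling (lat w) (orth w) (finrank_orth h) ?_ B ρ hρ hB
  intro v hv
  rw [mem_orth]
  intro i
  rw [rc_dot, mem_lat.1 hv i]
  simp

open Classical in
theorem lat_card {ι : Type*} [Fintype ι] {N : ℕ} {w : ι → Fin N → ℤ}
    (h : LinearIndependent ℤ w) (B : ℕ) (hB : 1 ≤ B) :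
    (((bx N B).filter (· ∈ lat w)).card : ℝ) ≤
      3 ^ N * (3 * B) ^ (N - Fintype.card ι) := by
  have h1 := lat_doubling h B 1 le_rfl hB
  have h2 : (((bx N 1).filter (· ∈ lat w)).card : ℝ) ≤ 3 ^ N := by
    have h3 := Finset.card_filter_le (bx N 1) (· ∈ lat w)
    have h4 := WM.card_bx_le N (X := 1) le_rfl
    have h5 : (((bx N 1).filter (· ∈ lat w)).card : ℝ) ≤ ((bx N 1).card : ℝ) := by
      exact_mod_cast h3
    calc (((bx N 1).filter (· ∈ lat w)).card : ℝ) ≤ (bx N 1).card := h5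
      _ ≤ (3 * ((1 : ℕ) : ℝ)) ^ N := h4
      _ = 3 ^ N := by norm_num
  calc (((bx N B).filter (· ∈ lat w)).card : ℝ) ≤ _ := h1
    _ ≤ (3 * B / ((1 : ℕ) : ℝ)) ^ (N - Fintype.card ι) * 3 ^ N := by gcongr
    _ = _ := by
      rw [Nat.cast_one, div_one]
      ring

/-- `Σ t_i M_i v` for real `t`. -/
noncomputable def pen {k N : ℕ} (M : Fin k → Matrix (Fin N) (Fin N) ℤ) (t : Fin k → ℝ) :
    Matrix (Fin N) (Fin N) ℝ := ∑ i, t i • (M i).map (Int.cast : ℤ → ℝ)

theorem pen_mulVec {k N : ℕ} (M : Fin k → Matrix (Fin N) (Fin N) ℤ) (t : Fin k → ℝ)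
    (v : Fin N → ℝ) : pen M t *ᵥ v = ∑ i, t i • cv M v i := by
  unfold pen cv
  rw [Matrix.sum_mulVec]
  refine Finset.sum_congr rfl fun i _ => ?_
  rw [smul_mulVec]

theorem vecMul_pen {k N : ℕ} (M : Fin k → Matrix (Fin N) (Fin N) ℤ) (t : Fin k → ℝ)
    (v : Fin N → ℝ) : v ᵥ* pen M t = ∑ i, t i • rv M v i := by
  unfold pen rv
  rw [Matrix.vecMul_sum]
  refine Finset.sum_congr rfl fun i _ => ?_
  rw [vecMul_smul]

/-- The complex vector of a real vector. -/
noncomputable def cc {N : ℕ} (v : Fin N → ℝ) : Fin N → ℂ := fun i => (v i : ℂ)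

theorem cv_cc {k N : ℕ} (M : Fin k → Matrix (Fin N) (Fin N) ℤ) (v : Fin N → ℝ) (i : Fin k) :
    cv M (cc v) i = cc (cv M v i) := by
  funext p
  unfold cv cc mulVec dotProduct
  push_cast
  refine Finset.sum_congr rfl fun q _ => ?_
  simp

theorem rv_cc {k N : ℕ} (M : Fin k → Matrix (Fin N) (Fin N) ℤ) (v : Fin N → ℝ) (i : Fin k) :
    rv M (cc v) i = cc (rv M v i) := by
  funext p
  unfold rv cc vecMul dotProduct
  push_cast
  refine Finset.sum_congr rfl fun q _ => ?_
  simp

theorem dot_cc {N : ℕ} (v w : Fin N → ℝ) : cc v ⬝ᵥ cc w = ((v ⬝ᵥ w : ℝ) : ℂ) := by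
  unfold cc dotProduct
  push_cast
  rfl

theorem cc_zero {N : ℕ} {v : Fin N → ℝ} (h : cc v = 0) : v = 0 := by
  funext i
  have := congrFun h i
  unfold cc at this
  simpa using this

/-- No degenerate real points. -/
theorem real_smooth {k N : ℕ} {M : Fin k → Matrix (Fin N) (Fin N) ℤ} (hs : Smooth M)
    {x y : Fin N → ℝ} {t : Fin k → ℝ} (ht : t ≠ 0) (hx : x ≠ 0) (hinc : Inc M x y)
    (h1 : pen M t *ᵥ y = 0) (h2 : x ᵥ* pen M t = 0) : y = 0 := by
  by_contra hy
  have hi : Inc M (cc x) (cc y) := by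
    intro i
    rw [cv_cc, dot_cc, hinc i]
    simp
  have h3 := hs (cc x) (cc y) (fun h => hx (cc_zero h)) (fun h => hy (cc_zero h)) hi
  rw [Fintype.linearIndependent_iff] at h3
  apply ht
  rw [pen_mulVec] at h1
  rw [vecMul_pen] at h2
  have h4 := h3 (fun i => (t i : ℂ)) (by
    rw [Prod.ext_iff]
    constructor
    · rw [Prod.fst_sum]
      simp only [Prod.smul_fst, Prod.fst_zero]
      funext p
      have h5 := congrFun h1 p
      rw [Finset.sum_apply] at h5 ⊢
      simp only [Pi.smul_apply, smul_eq_mul, Pi.zero_apply] at h5 ⊢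
      have h6 : ∑ i, (t i : ℂ) * cv M (cc y) i p = ((∑ i, t i * cv M y i p : ℝ) : ℂ) := by
        push_cast
        refine Finset.sum_congr rfl fun i _ => ?_
        rw [cv_cc]
        rfl
      rw [h6, h5]
      simp
    · rw [Prod.snd_sum]
      simp only [Prod.smul_snd, Prod.snd_zero]
      funext p
      have h5 := congrFun h2 p
      rw [Finset.sum_apply] at h5 ⊢
      simp only [Pi.smul_apply, smul_eq_mul, Pi.zero_apply] at h5 ⊢
      have h6 : ∑ i, (t i : ℂ) * rv M (cc x) i p = ((∑ i, t i * rv M x i p : ℝ) : ℂ) := by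
        push_cast
        refine Finset.sum_congr rfl fun i _ => ?_
        rw [rv_cc]
        rfl
      rw [h6, h5]
      simp)
  funext i
  have := h4 i
  simpa using this

/-- The kernels of the matrices of the system have dimension at most `k - 1`. -/
theorem finrank_pen {k N : ℕ} {M : Fin k → Matrix (Fin N) (Fin N) ℤ} (hs : Smooth M)
    {t : Fin k → ℝ} (ht : t ≠ 0) :
    finrank ℝ (LinearMap.ker (Matrix.mulVecLin (pen M t))) ≤ k - 1 := by
  by_cases hdet : (pen M t).det = 0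
  · obtain ⟨x, hx, hx0⟩ := Matrix.exists_vecMul_eq_zero_iff.2 hdet
    -- the linear map to the hyperplane
    set K := LinearMap.ker (Matrix.mulVecLin (pen M t)) with hK
    let φ : (Fin N → ℝ) →ₗ[ℝ] (Fin k → ℝ) := LinearMap.pi fun i =>
      (Matrix.mulVecLin ((Matrix.of fun _ : Fin 1 => rv M x i))).codRestrict ⊤ (by simp) |>.comp
        LinearMap.id |> fun f => (LinearMap.proj 0).comp ((⊤ : Submodule ℝ (Fin 1 → ℝ)).subtype.comp f)
    have hφ : ∀ v i, φ v i = rv M x i ⬝ᵥ v := fun v i => rfl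
    let ψ : (Fin k → ℝ) →ₗ[ℝ] ℝ := ∑ i, t i • LinearMap.proj i
    have hψ : ∀ z, ψ z = ∑ i, t i * z i := by
      intro z
      simp [ψ]
    have hψ0 : ψ ≠ 0 := by
      intro h
      apply ht
      funext i
      have h1 : ψ (Pi.single i 1) = 0 := by rw [h]; rfl
      rw [hψ] at h1
      simpa [Pi.single_apply] using h1
    have hrange : ∀ v ∈ K, φ v ∈ LinearMap.ker ψ := by
      intro v hv
      rw [LinearMap.mem_ker, hψ]
      simp only [hφ]
      have h1 : ∑ i, t i * rv M x i ⬝ᵥ v = (x ᵥ* pen M t) ⬝ᵥ v := by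
        rw [vecMul_pen, sum_dotProduct]
        refine Finset.sum_congr rfl fun i _ => ?_
        rw [smul_dotProduct, smul_eq_mul]
      rw [h1, hx0, zero_dotProduct]
    have hinj : ∀ v ∈ K, φ v = 0 → v = 0 := by
      intro v hv h0
      refine real_smooth hs ht hx ?_ ?_ hx0
      · rw [inc_iff_rv]
        intro i
        rw [← hφ, h0]
        rfl
      · rw [hK, LinearMap.mem_ker, Matrix.mulVecLin_apply] at hv
        exact hv
    let χ : K →ₗ[ℝ] LinearMap.ker ψ :=
      (φ.comp K.subtype).codRestrict (LinearMap.ker ψ) (fun v => hrange v.1 v.2)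
    have hχ : Function.Injective χ := by
      rw [← LinearMap.ker_eq_bot, Submodule.eq_bot_iff]
      intro v hv
      rw [LinearMap.mem_ker] at hv
      have h1 : φ v.1 = 0 := congrArg Subtype.val hv
      exact Subtype.ext (hinj v.1 v.2 h1)
    have h1 := LinearMap.finrank_le_finrank_of_injective hχ
    have h2 := LinearMap.finrank_range_add_finrank_ker ψ
    rw [finrank_fintype_fun_eq_card, Fintype.card_fin] at h2
    have h3 : 0 < finrank ℝ (LinearMap.range ψ) := by
      rw [Nat.pos_iff_ne_zero]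
      intro h
      apply hψ0
      rw [Submodule.finrank_eq_zero, LinearMap.range_eq_bot] at h
      exact h
    omega
  · have h1 : LinearMap.ker (Matrix.mulVecLin (pen M t)) = ⊥ := by
      rw [Submodule.eq_bot_iff]
      intro v hv
      rw [LinearMap.mem_ker, Matrix.mulVecLin_apply] at hv
      exact Matrix.eq_zero_of_mulVec_eq_zero hdet hv
    rw [h1, finrank_bot]
    omega

end Pool.Agent.H548.BL
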