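import Mathlib
import Pool.Agent.H548.BL.Cnt

/-! The degenerate integer vectors: the columns `M i y` are linearly dependent. -/

namespace Pool.Agent.H548.BL

open Finset Module Matrix
open Pool.Agent.H548.WM (ht bx mem_bx)

/-- The rational version of `cv`. -/
theorem cv_cast {k N : ℕ} (M : Fin k → Matrix (Fin N) (Fin N) ℤ) (y : Fin N → ℤ) (i : Fin k)
    (p : Fin N) {R : Type*} [CommRing R] :
    cv M (fun q => (y q : R)) i p = ((cv M y i p : ℤ) : R) := by
  unfold cv mulVec dotProduct
  push_cast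
  refine Finset.sum_congr rfl fun q _ => ?_
  simp

/-- Relations between the columns of a degenerate vector are proportional. -/
theorem prop_rel {k N : ℕ} {M : Fin k → Matrix (Fin N) (Fin N) ℤ} (hf : FinZeros M)
    {y : Fin N → ℤ} (hy : y ≠ 0) {s s' : Fin k → ℚ} (hs : s ≠ 0)
    (h : ∀ p, ∑ i, s i * ((cv M y i p : ℤ) : ℚ) = 0) (h' : ∀ p, ∑ i, s' i * ((cv M y i p : ℤ) : ℚ) = 0) :
    ∃ c : ℚ, s' = c • s := by
  obtain ⟨S, hS⟩ := hf
  by_contra hcon
  push Not at hcon
  have hdet : ∀ u : Fin k → ℚ, (∀ p, ∑ i, u i * ((cv M y i p : ℤ) : ℚ) = 0) →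
      (∑ i, u i • (M i).map (Int.cast : ℤ → ℚ)).det = 0 := by
    intro u hu
    rw [← Matrix.exists_mulVec_eq_zero_iff]
    refine ⟨fun q => (y q : ℚ), ?_, ?_⟩
    · intro h0
      apply hy
      funext q
      have := congrFun h0 q
      simpa using this
    · rw [Matrix.sum_mulVec]
      funext p
      rw [Finset.sum_apply]
      simp only [smul_mulVec, Pi.smul_apply, smul_eq_mul, Pi.zero_apply]
      rw [← hu p]
      refine Finset.sum_congr rfl fun i _ => ?_
      congr 1
      exact cv_cast M y i p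
  have hall : ∀ j : ℕ, ∃ t ∈ S, ∃ c : ℚ, s' + (j : ℚ) • s = c • t := by
    intro j
    apply hS
    · intro h0
      apply hcon (-(j : ℚ))
      rw [neg_smul]
      exact eq_neg_of_add_eq_zero_left h0
    · apply hdet
      intro p
      have : ∑ i, (s' + (j : ℚ) • s) i * ((cv M y i p : ℤ) : ℚ) =
          ∑ i, s' i * ((cv M y i p : ℤ) : ℚ) + j * ∑ i, s i * ((cv M y i p : ℤ) : ℚ) := by
        rw [Finset.mul_sum, ← Finset.sum_add_distrib]
        refine Finset.sum_congr rfl fun i _ => ?_
        simp only [Pi.add_apply, Pi.smul_apply, smul_eq_mul]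
        ring
      rw [this, h p, h' p]
      ring
  choose f hfS g hg using hall
  have hninj : ∃ a b : ℕ, a ≠ b ∧ f a = f b := by
    have : ¬ Function.Injective (fun j => (⟨f j, hfS j⟩ : S)) := not_injective_infinite_finite _
    unfold Function.Injective at this
    push Not at this
    obtain ⟨a, b, h1, h2⟩ := this
    exact ⟨a, b, h2, congrArg Subtype.val h1⟩
  obtain ⟨a, b, hab, hfab⟩ := hninj
  have ha := hg a
  have hb := hg b
  rw [hfab] at ha
  -- (a - b) s = (g a - g b) t
  have h1 : ((a : ℚ) - b) • s = (g a - g b) • f b := by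
    rw [sub_smul, sub_smul, ← ha, ← hb]
    abel
  have hab' : ((a : ℚ) - b) ≠ 0 := by
    rw [sub_ne_zero]
    exact_mod_cast hab
  have hg' : g a - g b ≠ 0 := by
    intro h0
    rw [h0, zero_smul] at h1
    rcases smul_eq_zero.1 h1 with h2 | h2
    · exact hab' h2
    · exact hs h2
  have h2 : f b = ((g a - g b)⁻¹ * ((a : ℚ) - b)) • s := by
    rw [mul_smul, h1, smul_smul, inv_mul_cancel₀ hg', one_smul]
  apply hcon (g b * ((g a - g b)⁻¹ * ((a : ℚ) - b)) - b)
  rw [sub_smul, mul_smul, ← h2, ← hb]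
  abel

/-- A dependent family of integer vectors has a rational relation. -/
theorem exists_rel {k N : ℕ} {w : Fin k → Fin N → ℤ} (h : ¬ LinearIndependent ℤ w) :
    ∃ s : Fin k → ℚ, s ≠ 0 ∧ ∀ p, ∑ i, s i * (w i p : ℚ) = 0 := by
  rw [Fintype.linearIndependent_iff] at h
  push Not at h
  obtain ⟨g, hg, i, hi⟩ := h
  refine ⟨fun i => (g i : ℚ), ?_, ?_⟩
  · intro h0
    apply hi
    have := congrFun h0 i
    simpa using this
  · intro p
    have := congrFun hg p
    rw [Finset.sum_apply] at this
    simp only [Pi.smul_apply, smul_eq_mul, Pi.zero_apply] at this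
    have h2 : ((∑ x, g x * w x p : ℤ) : ℚ) = 0 := by
      rw [this]
      simp
    push_cast at h2
    exact h2

open Classical in
/-- The number of the `x` over a degenerate `y`. -/
theorem fibre_bad {k N : ℕ} {M : Fin k → Matrix (Fin N) (Fin N) ℤ} (hf : FinZeros M)
    {y : Fin N → ℤ} (hy : y ≠ 0) (hb : ¬ LinearIndependent ℤ (cv M y)) (A : ℕ) (hA : 1 ≤ A)
    (hk : 1 ≤ k) (hkN : k ≤ N) :
    (((bx N A).filter fun x => Inc M x y).card : ℝ) ≤ 3 ^ N * (3 * A) ^ (N - k + 1) := by
  obtain ⟨s, hs, hrel⟩ := exists_rel hb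
  obtain ⟨i0, hi0⟩ : ∃ i, s i ≠ 0 := by
    by_contra h
    push Not at h
    exact hs (funext h)
  have hli : LinearIndependent ℤ (fun i : {i : Fin k // i ≠ i0} => cv M y i.1) := by
    rw [Fintype.linearIndependent_iff]
    intro g hg i
    set s' : Fin k → ℚ := fun j => if h : j ≠ i0 then (g ⟨j, h⟩ : ℚ) else 0 with hs'
    have h1 : ∀ p, ∑ j, s' j * ((cv M y j p : ℤ) : ℚ) = 0 := by
      intro p
      have h2 := congrFun hg p
      rw [Finset.sum_apply] at h2
      simp only [Pi.smul_apply, smul_eq_mul, Pi.zero_apply] at h2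
      have h3 : ((∑ c : {i : Fin k // i ≠ i0}, g c * cv M y c.1 p : ℤ) : ℚ) = 0 := by
        rw [h2]
        simp
      rw [← h3]
      push_cast
      symm
      have h4 : ∀ c : {i : Fin k // i ≠ i0}, (g c : ℚ) * ((cv M y c.1 p : ℤ) : ℚ) =
          s' c.1 * ((cv M y c.1 p : ℤ) : ℚ) := by
        intro c
        rw [hs']
        simp only [dif_pos c.2]
      rw [Finset.sum_congr rfl fun c _ => h4 c]
      rw [← Finset.sum_subtype (univ.filter fun j => j ≠ i0) (by simp)
        (fun j => s' j * ((cv M y j p : ℤ) : ℚ))]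
      apply Finset.sum_filter_of_ne
      intro j _ hj hji
      apply hj
      rw [hs', hji]
      simp
    obtain ⟨c, hc⟩ := prop_rel hf hy hs hrel h1
    have h5 : s' i0 = c * s i0 := by
      have := congrFun hc i0
      simpa using this
    have h6 : s' i0 = 0 := by
      rw [hs']
      simp
    have h7 : c = 0 := by
      rw [h6] at h5
      rcases mul_eq_zero.1 h5.symm with h | h
      · exact h
      · exact absurd h hi0
    have h8 : s' i.1 = 0 := by
      have := congrFun hc i.1
      rw [h7] at this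
      simpa using this
    rw [hs'] at h8
    simp only [dif_pos i.2] at h8
    exact_mod_cast h8
  have h1 := lat_card hli A hA
  have hcard : Fintype.card {i : Fin k // i ≠ i0} = k - 1 := by
    rw [Fintype.card_subtype_compl, Fintype.card_fin, Fintype.card_unique]
  rw [hcard] at h1
  have h2 : N - (k - 1) = N - k + 1 := by omega
  rw [h2] at h1
  refine le_trans ?_ h1
  have h3 : (bx N A).filter (fun x => Inc M x y) ⊆
      (bx N A).filter (· ∈ lat (fun i : {i : Fin k // i ≠ i0} => cv M y i.1)) := by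
    intro x hx
    rw [mem_filter] at hx ⊢
    refine ⟨hx.1, ?_⟩
    rw [mem_lat]
    intro i
    rw [dotProduct_comm]
    exact hx.2 i.1
  exact_mod_cast card_le_card h3

end Pool.Agent.H548.BL
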