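import Mathlib
import Pool.Agent.H548.BL.Bad

/-! The descent step. -/

namespace Pool.Agent.H548.BL

open Finset Module Matrix
open Pool.Agent.H548.WM (ht bx mem_bx)

open Classical in
/-- The degenerate vectors in a box. -/
noncomputable def bad {k N : ℕ} (M : Fin k → Matrix (Fin N) (Fin N) ℤ) (ρ : ℕ) :
    Finset (Fin N → ℤ) := (bx N ρ).filter fun y => y ≠ 0 ∧ ¬ LinearIndependent ℤ (cv M y)

/-- The lattice of the integer vectors in the kernel of a real matrix. -/
def klat {N : ℕ} (P : Matrix (Fin N) (Fin N) ℝ) : AddSubgroup (Fin N → ℤ) where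
  carrier := {v | P *ᵥ rc v = 0}
  add_mem' := by
    intro a b ha hb
    have h : rc (a + b) = rc a + rc b := by
      funext i
      simp [rc]
    show P *ᵥ rc (a + b) = 0
    rw [h, mulVec_add, show P *ᵥ rc a = 0 from ha, show P *ᵥ rc b = 0 from hb, add_zero]
  zero_mem' := by
    show P *ᵥ rc 0 = 0
    have h : rc (0 : Fin N → ℤ) = 0 := by
      funext i
      simp [rc]
    rw [h, mulVec_zero]
  neg_mem' := by
    intro a ha
    have h : rc (-a) = -rc a := by
      funext i
      simp [rc]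
    show P *ᵥ rc (-a) = 0
    rw [h, mulVec_neg, show P *ᵥ rc a = 0 from ha, neg_zero]

open Classical in
theorem klat_card {k N : ℕ} {M : Fin k → Matrix (Fin N) (Fin N) ℤ} (hs : Smooth M)
    {t : Fin k → ℝ} (ht : t ≠ 0) (ρ : ℕ) (hρ : 1 ≤ ρ) :
    (((bx N ρ).filter (· ∈ klat (pen M t))).card : ℝ) ≤ 3 ^ N * (3 * ρ) ^ (k - 1) := by
  have h1 := doubling (klat (pen M t)) (LinearMap.ker (Matrix.mulVecLin (pen M t)))
    (finrank_pen hs ht) (by
      intro v hv
      rw [LinearMap.mem_ker, Matrix.mulVecLin_apply]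
      exact hv) ρ 1 le_rfl hρ
  have h2 : (((bx N 1).filter (· ∈ klat (pen M t))).card : ℝ) ≤ 3 ^ N := by
    have h3 := Finset.card_filter_le (bx N 1) (· ∈ klat (pen M t))
    have h4 := WM.card_bx_le N (X := 1) le_rfl
    have h5 : (((bx N 1).filter (· ∈ klat (pen M t))).card : ℝ) ≤ ((bx N 1).card : ℝ) := by
      exact_mod_cast h3
    calc (((bx N 1).filter (· ∈ klat (pen M t))).card : ℝ) ≤ (bx N 1).card := h5
      _ ≤ (3 * ((1 : ℕ) : ℝ)) ^ N := h4
      _ = 3 ^ N := by norm_num
  calc (((bx N ρ).filter (· ∈ klat (pen M t))).card : ℝ) ≤ _ := h1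
    _ ≤ (3 * ρ / ((1 : ℕ) : ℝ)) ^ (k - 1) * 3 ^ N := by gcongr
    _ = _ := by
      rw [Nat.cast_one, div_one]
      ring

theorem card_bad {k N : ℕ} {M : Fin k → Matrix (Fin N) (Fin N) ℤ} (hs : Smooth M)
    (hf : FinZeros M) : ∃ D : ℝ, 0 ≤ D ∧ ∀ ρ : ℕ, 1 ≤ ρ →
      ((bad M ρ).card : ℝ) ≤ D * (3 * ρ) ^ (k - 1) := by
  classical
  obtain ⟨S, hS⟩ := hf
  refine ⟨S.card * 3 ^ N, by positivity, fun ρ hρ => ?_⟩
  set S' := S.filter (· ≠ 0) with hS'
  have hcov : bad M ρ ⊆ S'.biUnion fun t =>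
      (bx N ρ).filter (· ∈ klat (pen M fun i => (t i : ℝ))) := by
    intro y hy
    unfold bad at hy
    rw [mem_filter] at hy
    obtain ⟨hyb, hy0, hyd⟩ := hy
    obtain ⟨s, hs0, hrel⟩ := exists_rel hyd
    have hdet : (∑ i, s i • (M i).map (Int.cast : ℤ → ℚ)).det = 0 := by
      rw [← Matrix.exists_mulVec_eq_zero_iff]
      refine ⟨fun q => (y q : ℚ), ?_, ?_⟩
      · intro h0
        apply hy0
        funext q
        have := congrFun h0 q
        simpa using this
      · rw [Matrix.sum_mulVec]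
        funext p
        rw [Finset.sum_apply]
        simp only [smul_mulVec, Pi.smul_apply, smul_eq_mul, Pi.zero_apply]
        rw [← hrel p]
        refine Finset.sum_congr rfl fun i _ => ?_
        congr 1
        exact cv_cast M y i p
    obtain ⟨t, htS, c, hc⟩ := hS s hs0 hdet
    have hc0 : c ≠ 0 := by
      rintro rfl
      rw [zero_smul] at hc
      exact hs0 hc
    have ht0 : t ≠ 0 := by
      rintro rfl
      rw [smul_zero] at hc
      exact hs0 hc
    rw [mem_biUnion]
    refine ⟨t, ?_, ?_⟩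
    · rw [hS', mem_filter]
      exact ⟨htS, ht0⟩
    · rw [mem_filter]
      refine ⟨hyb, ?_⟩
      show pen M (fun i => (t i : ℝ)) *ᵥ rc y = 0
      rw [pen_mulVec]
      funext p
      rw [Finset.sum_apply]
      simp only [Pi.smul_apply, smul_eq_mul, Pi.zero_apply]
      have h1 : ∀ i, cv M (rc y) i p = ((cv M y i p : ℤ) : ℝ) := fun i => cv_cast M y i p
      simp only [h1]
      have h2 : ∑ i, t i * ((cv M y i p : ℤ) : ℚ) = 0 := by
        have h3 := hrel p
        rw [hc] at h3
        simp only [Pi.smul_apply, smul_eq_mul, mul_assoc] at h3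
        rw [← Finset.mul_sum] at h3
        rcases mul_eq_zero.1 h3 with h4 | h4
        · exact absurd h4 hc0
        · exact h4
      have h5 : ((∑ i, t i * ((cv M y i p : ℤ) : ℚ) : ℚ) : ℝ) = 0 := by
        rw [h2]
        simp
      push_cast at h5
      exact h5
  have hle : ∀ t ∈ S', (((bx N ρ).filter (· ∈ klat (pen M fun i => (t i : ℝ)))).card : ℝ) ≤
      3 ^ N * (3 * ρ) ^ (k - 1) := by
    intro t ht
    rw [hS', mem_filter] at ht
    apply klat_card hs _ ρ hρ
    intro h0
    apply ht.2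
    funext i
    have := congrFun h0 i
    simpa using this
  calc ((bad M ρ).card : ℝ) ≤ ((S'.biUnion fun t =>
      (bx N ρ).filter (· ∈ klat (pen M fun i => (t i : ℝ)))).card : ℝ) := by
        exact_mod_cast card_le_card hcov
    _ ≤ ∑ t ∈ S', (((bx N ρ).filter (· ∈ klat (pen M fun i => (t i : ℝ)))).card : ℝ) := by
        exact_mod_cast card_biUnion_le
    _ ≤ ∑ t ∈ S', 3 ^ N * (3 * (ρ : ℝ)) ^ (k - 1) := Finset.sum_le_sum hle
    _ = S'.card * (3 ^ N * (3 * ρ) ^ (k - 1)) := by rw [Finset.sum_const, nsmul_eq_mul]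
    _ ≤ S.card * (3 ^ N * (3 * ρ) ^ (k - 1)) := by
        gcongr
        rw [hS']
        exact filter_subset _ _
    _ = S.card * 3 ^ N * (3 * ρ) ^ (k - 1) := by ring

open Classical in
/-- The pairs. -/
noncomputable def PP {k N : ℕ} (M : Fin k → Matrix (Fin N) (Fin N) ℤ) (A B : ℕ) :
    Finset ((Fin N → ℤ) × (Fin N → ℤ)) :=
  (((bx N A).filter fun x => LinearIndependent ℤ (rv M x)) ×ˢ (bx N B)).filter
    fun t => Inc M t.1 t.2 ∧ LinearIndependent ℤ (cv M t.2)

open Classical in
theorem card_prod_filter {α β : Type*} (X : Finset α) (Y : Finset β) (P : α → β → Prop) :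
    ((X ×ˢ Y).filter fun t => P t.1 t.2).card = ∑ x ∈ X, (Y.filter fun y => P x y).card := by
  rw [card_filter, sum_product]
  refine Finset.sum_congr rfl fun x _ => ?_
  rw [card_filter]

open Classical in
theorem sum_swap {α β : Type*} (X : Finset α) (Y : Finset β) (P : α → β → Prop) :
    ∑ x ∈ X, (Y.filter fun y => P x y).card = ∑ y ∈ Y, (X.filter fun x => P x y).card := by
  simp only [card_filter]
  rw [Finset.sum_comm]

open Classical in
theorem step {k N : ℕ} {M : Fin k → Matrix (Fin N) (Fin N) ℤ} (hs : Smooth M)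
    (hf : FinZeros M) (hk : 1 ≤ k) (hkN : k ≤ N) : ∃ D : ℝ, 0 ≤ D ∧ ∀ A B ρ : ℕ, 1 ≤ A → 1 ≤ ρ →
      ρ ≤ B → ((PP M A B).card : ℝ) ≤ (3 * B / ρ) ^ (N - k) *
        ((3 * A) ^ N + (PP M A ρ).card + D * (A ^ (N - k + 1) * ρ ^ (k - 1))) := by
  obtain ⟨D, hD, hbad⟩ := card_bad hs hf
  refine ⟨D * 3 ^ (k - 1) * 3 ^ N * 3 ^ (N - k + 1), by positivity, ?_⟩
  intro A B ρ hA hρ hρB
  set X := (bx N A).filter fun x => LinearIndependent ℤ (rv M x) with hX
  have hcard : ∀ B', ((PP M A B').card) = ∑ x ∈ X, ((bx N B').filter fun y =>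
      Inc M x y ∧ LinearIndependent ℤ (cv M y)).card := by
    intro B'
    unfold PP
    convert card_prod_filter X (bx N B') fun x y => Inc M x y ∧ LinearIndependent ℤ (cv M y)
  have h1 : ∀ x ∈ X, (((bx N B).filter fun y =>
      Inc M x y ∧ LinearIndependent ℤ (cv M y)).card : ℝ) ≤ (3 * B / ρ) ^ (N - k) *
        (1 + (((bx N ρ).filter fun y => Inc M x y ∧ LinearIndependent ℤ (cv M y)).card : ℝ) +
          (((bad M ρ).filter fun y => Inc M x y).card : ℝ)) := by
    intro x hx
    rw [hX, mem_filter] at hx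
    have h2 := lat_doubling hx.2 B ρ hρ hρB
    rw [Fintype.card_fin] at h2
    have h3 : (((bx N B).filter fun y => Inc M x y ∧ LinearIndependent ℤ (cv M y)).card : ℝ) ≤
        (((bx N B).filter (· ∈ lat (rv M x))).card : ℝ) := by
      have : (bx N B).filter (fun y => Inc M x y ∧ LinearIndependent ℤ (cv M y)) ⊆
          (bx N B).filter (· ∈ lat (rv M x)) := by
        intro y hy
        rw [mem_filter] at hy ⊢
        refine ⟨hy.1, ?_⟩
        rw [mem_lat]
        exact inc_iff_rv.1 hy.2.1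
      exact_mod_cast card_le_card this
    have h4 : (((bx N ρ).filter (· ∈ lat (rv M x))).card : ℝ) ≤
        1 + (((bx N ρ).filter fun y => Inc M x y ∧ LinearIndependent ℤ (cv M y)).card : ℝ) +
          (((bad M ρ).filter fun y => Inc M x y).card : ℝ) := by
      have h5 : (bx N ρ).filter (· ∈ lat (rv M x)) ⊆ ({0} ∪
          (bx N ρ).filter (fun y => Inc M x y ∧ LinearIndependent ℤ (cv M y))) ∪
          (bad M ρ).filter (fun y => Inc M x y) := by
        intro y hy
        rw [mem_filter] at hy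
        obtain ⟨hy1, hy2⟩ := hy
        have hinc : Inc M x y := inc_iff_rv.2 hy2
        rw [mem_union, mem_union, mem_singleton, mem_filter, mem_filter]
        by_cases hy0 : y = 0
        · exact Or.inl (Or.inl hy0)
        · by_cases hli : LinearIndependent ℤ (cv M y)
          · exact Or.inl (Or.inr ⟨hy1, hinc, hli⟩)
          · right
            refine ⟨?_, hinc⟩
            unfold bad
            rw [mem_filter]
            exact ⟨hy1, hy0, hli⟩
      have h6 := card_le_card h5
      have h7 := card_union_le ({0} ∪ (bx N ρ).filter (fun y => Inc M x y ∧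
        LinearIndependent ℤ (cv M y))) ((bad M ρ).filter (fun y => Inc M x y))
      have h8 := card_union_le {0} ((bx N ρ).filter (fun y => Inc M x y ∧
        LinearIndependent ℤ (cv M y)))
      rw [card_singleton] at h8
      have h9 : ((bx N ρ).filter (· ∈ lat (rv M x))).card ≤
        1 + ((bx N ρ).filter fun y => Inc M x y ∧ LinearIndependent ℤ (cv M y)).card +
          ((bad M ρ).filter fun y => Inc M x y).card := by omega
      exact_mod_cast h9
    calc _ ≤ _ := h3
      _ ≤ _ := h2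
      _ ≤ _ := by gcongr
  have hXc : (X.card : ℝ) ≤ (3 * A) ^ N := by
    refine le_trans ?_ (WM.card_bx_le N hA)
    exact_mod_cast card_le_card (filter_subset _ _)
  have hb : (∑ x ∈ X, (((bad M ρ).filter fun y => Inc M x y).card : ℝ)) ≤
      D * 3 ^ (k - 1) * 3 ^ N * 3 ^ (N - k + 1) * (A ^ (N - k + 1) * ρ ^ (k - 1)) := by
    have h2 : ∑ x ∈ X, ((bad M ρ).filter fun y => Inc M x y).card ≤
        ∑ y ∈ bad M ρ, ((bx N A).filter fun x => Inc M x y).card := by
      rw [sum_swap]
      refine Finset.sum_le_sum fun y _ => card_le_card ?_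
      intro x hx
      rw [mem_filter] at hx ⊢
      rw [hX, mem_filter] at hx
      exact ⟨hx.1.1, hx.2⟩
    have h3 : ∀ y ∈ bad M ρ, (((bx N A).filter fun x => Inc M x y).card : ℝ) ≤
        3 ^ N * (3 * A) ^ (N - k + 1) := by
      intro y hy
      unfold bad at hy
      rw [mem_filter] at hy
      exact fibre_bad hf hy.2.1 hy.2.2 A hA hk hkN
    calc (∑ x ∈ X, (((bad M ρ).filter fun y => Inc M x y).card : ℝ)) ≤
        ∑ y ∈ bad M ρ, (((bx N A).filter fun x => Inc M x y).card : ℝ) := by exact_mod_cast h2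
      _ ≤ ∑ y ∈ bad M ρ, 3 ^ N * (3 * (A : ℝ)) ^ (N - k + 1) := Finset.sum_le_sum h3
      _ = (bad M ρ).card * (3 ^ N * (3 * A) ^ (N - k + 1)) := by
          rw [Finset.sum_const, nsmul_eq_mul]
      _ ≤ (D * (3 * ρ) ^ (k - 1)) * (3 ^ N * (3 * A) ^ (N - k + 1)) := by
          gcongr
          exact hbad ρ hρ
      _ = _ := by
          rw [mul_pow, mul_pow]
          ring
  calc ((PP M A B).card : ℝ) = ∑ x ∈ X, (((bx N B).filter fun y =>
      Inc M x y ∧ LinearIndependent ℤ (cv M y)).card : ℝ) := by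
        rw [hcard B]
        push_cast
        rfl
    _ ≤ ∑ x ∈ X, (3 * B / ρ : ℝ) ^ (N - k) *
        (1 + (((bx N ρ).filter fun y => Inc M x y ∧ LinearIndependent ℤ (cv M y)).card : ℝ) +
          (((bad M ρ).filter fun y => Inc M x y).card : ℝ)) := Finset.sum_le_sum h1
    _ = (3 * B / ρ : ℝ) ^ (N - k) * ((X.card : ℝ) + ((PP M A ρ).card : ℝ) +
          ∑ x ∈ X, (((bad M ρ).filter fun y => Inc M x y).card : ℝ)) := by
        rw [← Finset.mul_sum, Finset.sum_add_distrib, Finset.sum_add_distrib, Finset.sum_const,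
          nsmul_eq_mul, mul_one, hcard ρ]
        push_cast
        rfl
    _ ≤ _ := by gcongr

end Pool.Agent.H548.BL
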