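import Mathlib
import Pool.Agent.H548.BL.Step

/-! The bound for the number of points in boxes. -/

namespace Pool.Agent.H548.BL

open Finset Module Matrix
open Pool.Agent.H548.WM (ht bx mem_bx)

theorem real_step (a N k : ℕ) (ha : 1 ≤ a) (hN : N = a + k) (hka : k ≤ a) (hk : 1 ≤ k)
    (A B ρ D K F F' ε q : ℝ) (hA : 1 ≤ A) (hAB : A ≤ B) (hρ : 1 ≤ ρ) (h1 : A ≤ q * ρ)
    (h2 : ρ * q ≤ 2 * A) (hq : 1 ≤ q) (hε : 0 < ε) (hqe : q ^ a ≤ A ^ ε)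
    (hqz : 3 ^ a * 2 * (2 / q) ^ ε ≤ 1) (hD : 0 ≤ D)
    (hF : F ≤ (3 * B / ρ) ^ a * ((3 * A) ^ N + F' + D * (A ^ (a + 1) * ρ ^ (k - 1))))
    (hF' : F' ≤ K * (A * ρ) ^ a * (A * ρ) ^ ε) (hK : 2 * (3 ^ (a + N) + 3 ^ a * D) ≤ K) :
    F ≤ K * (A * B) ^ a * (A * B) ^ ε := by
  have hA0 : 0 < A := by linarith
  have hB0 : 0 < B := by linarith
  have hρ0 : 0 < ρ := by linarith
  have hq0 : 0 < q := by linarith
  have hK0 : 0 ≤ K := le_trans (by positivity) hK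
  have T1 : (3 * B / ρ) ^ a * (3 * A) ^ N ≤ 3 ^ (a + N) * (A * B) ^ a * q ^ a := by
    have e1 : A ^ N ≤ A ^ a * (q * ρ) ^ a := by
      rw [hN, pow_add]
      gcongr
      calc A ^ k ≤ A ^ a := pow_le_pow_right₀ hA hka
        _ ≤ (q * ρ) ^ a := by gcongr
    calc (3 * B / ρ) ^ a * (3 * A) ^ N = 3 ^ (a + N) * B ^ a / ρ ^ a * A ^ N := by
          rw [div_pow, mul_pow, mul_pow, pow_add]
          ring
      _ ≤ 3 ^ (a + N) * B ^ a / ρ ^ a * (A ^ a * (q * ρ) ^ a) := by gcongr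
      _ = 3 ^ (a + N) * (A * B) ^ a * q ^ a := by
          rw [mul_pow, mul_pow]
          field_simp
  have T3 : (3 * B / ρ) ^ a * (D * (A ^ (a + 1) * ρ ^ (k - 1))) ≤
      3 ^ a * D * (A * B) ^ a * q ^ a := by
    have e1 : A ^ (a + 1) * ρ ^ (k - 1) ≤ A ^ a * (q * ρ ^ a) := by
      have e2 : A * ρ ^ (k - 1) ≤ q * ρ ^ a := by
        calc A * ρ ^ (k - 1) ≤ (q * ρ) * ρ ^ (a - 1) := by
              apply mul_le_mul h1 (pow_le_pow_right₀ hρ (by omega)) (by positivity)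
                (by positivity)
          _ = q * ρ ^ a := by
              rw [mul_assoc, ← pow_succ']
              congr 2
              omega
      calc A ^ (a + 1) * ρ ^ (k - 1) = A ^ a * (A * ρ ^ (k - 1)) := by
            rw [pow_succ]
            ring
        _ ≤ _ := mul_le_mul_of_nonneg_left e2 (by positivity)
    calc (3 * B / ρ) ^ a * (D * (A ^ (a + 1) * ρ ^ (k - 1)))
        ≤ (3 * B / ρ) ^ a * (D * (A ^ a * (q * ρ ^ a))) := by gcongr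
      _ = 3 ^ a * D * (A * B) ^ a * q := by
          rw [div_pow, mul_pow, mul_pow]
          field_simp
      _ ≤ 3 ^ a * D * (A * B) ^ a * q ^ a := by
          gcongr
          exact le_self_pow₀ hq (by omega)
  have T2 : (3 * B / ρ) ^ a * F' ≤ K / 2 * (A * B) ^ a * (A * B) ^ ε := by
    have e1 : (A * ρ) ^ ε ≤ (A * B) ^ ε * (2 / q) ^ ε := by
      rw [← Real.mul_rpow (by positivity) (by positivity)]
      apply Real.rpow_le_rpow (by positivity) _ hε.le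
      have e2 : ρ ≤ B * (2 / q) := by
        rw [mul_div_assoc', le_div_iff₀ hq0]
        nlinarith
      calc A * ρ ≤ A * (B * (2 / q)) := by gcongr
        _ = A * B * (2 / q) := by ring
    calc (3 * B / ρ) ^ a * F' ≤ (3 * B / ρ) ^ a * (K * (A * ρ) ^ a * (A * ρ) ^ ε) := by gcongr
      _ ≤ (3 * B / ρ) ^ a * (K * (A * ρ) ^ a * ((A * B) ^ ε * (2 / q) ^ ε)) := by gcongr
      _ = K / 2 * (A * B) ^ a * (A * B) ^ ε * (3 ^ a * 2 * (2 / q) ^ ε) := by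
          rw [div_pow, mul_pow, mul_pow A ρ, mul_pow A B]
          field_simp
      _ ≤ K / 2 * (A * B) ^ a * (A * B) ^ ε * 1 := by gcongr
      _ = K / 2 * (A * B) ^ a * (A * B) ^ ε := by ring
  have hqe' : q ^ a ≤ (A * B) ^ ε := by
    refine hqe.trans (Real.rpow_le_rpow (by positivity) ?_ hε.le)
    nlinarith
  calc F ≤ (3 * B / ρ) ^ a * ((3 * A) ^ N + F' + D * (A ^ (a + 1) * ρ ^ (k - 1))) := hF
    _ = (3 * B / ρ) ^ a * (3 * A) ^ N + (3 * B / ρ) ^ a * F' +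
        (3 * B / ρ) ^ a * (D * (A ^ (a + 1) * ρ ^ (k - 1))) := by ring
    _ ≤ 3 ^ (a + N) * (A * B) ^ a * q ^ a + K / 2 * (A * B) ^ a * (A * B) ^ ε +
        3 ^ a * D * (A * B) ^ a * q ^ a := by linarith
    _ = (3 ^ (a + N) + 3 ^ a * D) * (A * B) ^ a * q ^ a +
        K / 2 * (A * B) ^ a * (A * B) ^ ε := by ring
    _ ≤ (K / 2) * (A * B) ^ a * (A * B) ^ ε + K / 2 * (A * B) ^ a * (A * B) ^ ε := by
        gcongr
        linarith
    _ = K * (A * B) ^ a * (A * B) ^ ε := by ring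

/-- The choice of the scale. -/
theorem exists_scale (a : ℕ) (ha : 1 ≤ a) (ε : ℝ) (hε : 0 < ε) : ∃ A0 : ℕ, ∀ A : ℕ, A0 ≤ A →
    ∃ (ρ : ℕ) (q : ℝ), 1 ≤ A ∧ 1 ≤ ρ ∧ ρ < A ∧ 1 ≤ q ∧ (A : ℝ) ≤ q * ρ ∧ (ρ : ℝ) * q ≤ 2 * A ∧
      q ^ a ≤ (A : ℝ) ^ ε ∧ 3 ^ a * 2 * (2 / q) ^ ε ≤ 1 := by
  have ha0 : (0 : ℝ) < a := by exact_mod_cast ha
  set δ : ℝ := min (ε / a) (1 / 2) with hδ
  have hδ0 : 0 < δ := by
    rw [hδ, lt_min_iff]
    exact ⟨by positivity, by norm_num⟩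
  have hδ1 : δ ≤ 1 / 2 := min_le_right _ _
  have hδε : δ * a ≤ ε := by
    have := min_le_left (ε / a) (1 / 2 : ℝ)
    rwa [← hδ, le_div_iff₀ ha0] at this
  set Z : ℝ := 2 * (3 ^ a * 2) ^ (1 / ε) with hZ
  have h32 : (1 : ℝ) < 3 ^ a * 2 := by
    have : (1 : ℝ) ≤ 3 ^ a := one_le_pow₀ (by norm_num)
    linarith
  have hZ2 : 2 < Z := by
    have : (1 : ℝ) < (3 ^ a * 2) ^ (1 / ε) := Real.one_lt_rpow h32 (by positivity)
    rw [hZ]
    linarith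
  refine ⟨⌈Z ^ (1 / δ)⌉₊, fun A hA => ?_⟩
  have hAZ : Z ^ (1 / δ) ≤ A := Nat.ceil_le.1 hA
  have hZ1 : (1 : ℝ) ≤ Z ^ (1 / δ) := Real.one_le_rpow (by linarith) (by positivity)
  have hA1 : (1 : ℝ) ≤ A := hZ1.trans hAZ
  have hA0 : (0 : ℝ) < A := by linarith
  set q : ℝ := (A : ℝ) ^ δ with hq
  have hqZ : Z ≤ q := by
    have h1 : (Z ^ (1 / δ)) ^ δ ≤ (A : ℝ) ^ δ := Real.rpow_le_rpow (by positivity) hAZ hδ0.le
    rwa [← Real.rpow_mul (by linarith), one_div_mul_cancel hδ0.ne', Real.rpow_one] at h1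
  have hq1 : 1 ≤ q := by linarith
  have hq0 : 0 < q := by linarith
  have hqA : q ≤ A := by
    rw [hq]
    calc (A : ℝ) ^ δ ≤ (A : ℝ) ^ (1 : ℝ) := Real.rpow_le_rpow_of_exponent_le hA1 (by linarith)
      _ = A := Real.rpow_one _
  have hAq : 1 ≤ (A : ℝ) / q := by rwa [le_div_iff₀ hq0, one_mul]
  have hc1 : (A : ℝ) / q ≤ ⌈(A : ℝ) / q⌉₊ := Nat.le_ceil _
  have hc2 : (⌈(A : ℝ) / q⌉₊ : ℝ) < (A : ℝ) / q + 1 := Nat.ceil_lt_add_one (by positivity)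
  have hc3 : (⌈(A : ℝ) / q⌉₊ : ℝ) * q ≤ 2 * A := by
    have h1 : (⌈(A : ℝ) / q⌉₊ : ℝ) ≤ 2 * ((A : ℝ) / q) := by linarith
    calc (⌈(A : ℝ) / q⌉₊ : ℝ) * q ≤ 2 * ((A : ℝ) / q) * q := by gcongr
      _ = 2 * A := by field_simp
  refine ⟨⌈(A : ℝ) / q⌉₊, q, by exact_mod_cast hA1, ?_, ?_, hq1, ?_, hc3, ?_, ?_⟩
  · rw [Nat.one_le_iff_ne_zero, ← Nat.pos_iff_ne_zero, Nat.ceil_pos]
    positivity
  · have h1 : (⌈(A : ℝ) / q⌉₊ : ℝ) < A := by
      have h2 : (⌈(A : ℝ) / q⌉₊ : ℝ) * 2 < 2 * A := by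
        have h3 : (0 : ℝ) < ⌈(A : ℝ) / q⌉₊ := by linarith
        nlinarith
      linarith
    exact_mod_cast h1
  · calc (A : ℝ) = q * ((A : ℝ) / q) := by field_simp
      _ ≤ q * ⌈(A : ℝ) / q⌉₊ := by gcongr
  · rw [hq, ← Real.rpow_natCast, ← Real.rpow_mul hA0.le]
    exact Real.rpow_le_rpow_of_exponent_le hA1 hδε
  · have h1 : 2 / q ≤ ((3 ^ a * 2 : ℝ) ^ (1 / ε))⁻¹ := by
      rw [div_le_iff₀ hq0]
      have h2 : 0 < (3 ^ a * 2 : ℝ) ^ (1 / ε) := by positivity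
      rw [inv_mul_eq_div, le_div_iff₀ h2]
      rw [hZ] at hqZ
      linarith
    have h2 : (2 / q) ^ ε ≤ (((3 ^ a * 2 : ℝ) ^ (1 / ε))⁻¹) ^ ε :=
      Real.rpow_le_rpow (by positivity) h1 hε.le
    have h3 : (((3 ^ a * 2 : ℝ) ^ (1 / ε))⁻¹) ^ ε = (3 ^ a * 2 : ℝ)⁻¹ := by
      rw [Real.inv_rpow (by positivity), ← Real.rpow_mul (by positivity),
        one_div_mul_cancel hε.ne', Real.rpow_one]
    rw [h3] at h2
    have h4 : (0 : ℝ) < 3 ^ a * 2 := by positivity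
    calc 3 ^ a * 2 * (2 / q) ^ ε ≤ 3 ^ a * 2 * (3 ^ a * 2)⁻¹ := by gcongr
      _ = 1 := mul_inv_cancel₀ h4.ne'

open Classical in
theorem card_PP_tr {k N : ℕ} (M : Fin k → Matrix (Fin N) (Fin N) ℤ) (A B : ℕ) :
    (PP M A B).card = (PP (tr M) B A).card := by
  apply Finset.card_bij (fun t _ => (t.2, t.1))
  · intro t ht
    unfold PP at ht ⊢
    rw [mem_filter, mem_product, mem_filter] at ht ⊢
    obtain ⟨⟨⟨h1, h2⟩, h3⟩, h4, h5⟩ := ht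
    refine ⟨⟨⟨h3, ?_⟩, h1⟩, ?_, ?_⟩
    · rw [rv_tr]
      exact h5
    · exact inc_tr.2 h4
    · rw [cv_tr]
      exact h2
  · intro t _ t' _ h
    simp only [Prod.mk.injEq] at h
    exact Prod.ext h.2 h.1
  · intro t ht
    unfold PP at ht ⊢
    refine ⟨(t.2, t.1), ?_, rfl⟩
    rw [mem_filter, mem_product, mem_filter] at ht ⊢
    obtain ⟨⟨⟨h1, h2⟩, h3⟩, h4, h5⟩ := ht
    refine ⟨⟨⟨h3, ?_⟩, h1⟩, ?_, ?_⟩
    · rw [cv_tr] at h5
      exact h5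
    · exact inc_tr.1 h4
    · rw [rv_tr] at h2
      exact h2

theorem card_PP_triv {k N : ℕ} (M : Fin k → Matrix (Fin N) (Fin N) ℤ) (A B : ℕ) (hA : 1 ≤ A)
    (hB : 1 ≤ B) : ((PP M A B).card : ℝ) ≤ (3 * A) ^ N * (3 * B) ^ N := by
  classical
  have h1 : (PP M A B).card ≤ (bx N A).card * (bx N B).card := by
    unfold PP
    refine (card_filter_le _ _).trans ?_
    rw [card_product]
    exact Nat.mul_le_mul_right _ (card_filter_le _ _)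
  calc ((PP M A B).card : ℝ) ≤ (bx N A).card * (bx N B).card := by exact_mod_cast h1
    _ ≤ _ := by
        gcongr
        · exact WM.card_bx_le N hA
        · exact WM.card_bx_le N hB

/-- **The box count.** -/
theorem box {k N : ℕ} {M : Fin k → Matrix (Fin N) (Fin N) ℤ} (hs : Smooth M)
    (hf : FinZeros M) (hk : 1 ≤ k) (hkN : 2 * k ≤ N) (ε : ℝ) (hε : 0 < ε) :
    ∃ K : ℝ, 0 ≤ K ∧ ∀ A B : ℕ, 1 ≤ A → 1 ≤ B →
      ((PP M A B).card : ℝ) ≤ K * ((A : ℝ) * B) ^ (N - k) * ((A : ℝ) * B) ^ ε := by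
  obtain ⟨D1, hD1, hst1⟩ := step hs hf hk (by omega)
  obtain ⟨D2, hD2, hst2⟩ := step (smooth_tr hs) (finZeros_tr hf) hk (by omega)
  set a := N - k with ha
  have ha1 : 1 ≤ a := by omega
  have hNa : N = a + k := by omega
  obtain ⟨A0, hA0⟩ := exists_scale a ha1 ε hε
  set D := max D1 D2 with hD
  set K0 : ℝ := 3 ^ a * ((3 * A0) ^ N + (3 * A0) ^ N * 3 ^ N + D * A0 ^ (a + 1)) with hK0
  set K : ℝ := max (2 * (3 ^ (a + N) + 3 ^ a * D)) K0 with hK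
  have hD0 : 0 ≤ D := le_max_of_le_left hD1
  have hK0' : 0 ≤ K := le_max_of_le_left (by positivity)
  -- one half
  have half : ∀ (M' : Fin k → Matrix (Fin N) (Fin N) ℤ),
      (∀ A B ρ : ℕ, 1 ≤ A → 1 ≤ ρ → ρ ≤ B → ((PP M' A B).card : ℝ) ≤ (3 * B / ρ) ^ a *
        ((3 * A) ^ N + (PP M' A ρ).card + D * (A ^ (a + 1) * ρ ^ (k - 1)))) →
      ∀ A B : ℕ, 1 ≤ A → A ≤ B →
      (∀ ρ : ℕ, 1 ≤ ρ → ρ < A → ((PP M' A ρ).card : ℝ) ≤
        K * ((A : ℝ) * ρ) ^ a * ((A : ℝ) * ρ) ^ ε) →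
      ((PP M' A B).card : ℝ) ≤ K * ((A : ℝ) * B) ^ a * ((A : ℝ) * B) ^ ε := by
    intro M' hst A B hA hAB ih
    have hA' : (1 : ℝ) ≤ A := by exact_mod_cast hA
    have hAB' : (A : ℝ) ≤ B := by exact_mod_cast hAB
    rcases le_or_gt A0 A with h | h
    · obtain ⟨ρ, q, -, hρ1, hρA, hq1, h1, h2, h3, h4⟩ := hA0 A h
      exact real_step a N k ha1 hNa (by omega) hk A B ρ D K _ _ ε q hA' hAB'
        (by exact_mod_cast hρ1) h1 h2 hq1 hε h3 h4 hD0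
        (hst A B ρ hA hρ1 (by omega)) (ih ρ hρ1 hρA) (le_max_left _ _)
    · have h1 := hst A B 1 hA le_rfl (by omega)
      have h2 := card_PP_triv M' A 1 hA le_rfl
      have h3 : (A : ℝ) ≤ A0 := by exact_mod_cast h.le
      have hB0 : (0 : ℝ) < B := by linarith
      calc ((PP M' A B).card : ℝ) ≤ (3 * B / (1 : ℕ)) ^ a *
          ((3 * A) ^ N + (PP M' A 1).card + D * (A ^ (a + 1) * (1 : ℕ) ^ (k - 1))) := h1
        _ ≤ (3 * B / (1 : ℕ)) ^ a * ((3 * A) ^ N + (3 * A) ^ N * (3 * (1 : ℕ)) ^ N +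
            D * (A ^ (a + 1) * (1 : ℕ) ^ (k - 1))) := by gcongr
        _ = 3 ^ a * ((3 * A) ^ N + (3 * A) ^ N * 3 ^ N + D * A ^ (a + 1)) * B ^ a := by
            rw [Nat.cast_one, div_one, one_pow, mul_one, mul_one, mul_pow]
            ring
        _ ≤ K0 * B ^ a := by
            rw [hK0]
            gcongr
        _ ≤ K * ((A : ℝ) * B) ^ a * ((A : ℝ) * B) ^ ε := by
            have h5 : (1 : ℝ) ≤ ((A : ℝ) * B) ^ ε := Real.one_le_rpow (by nlinarith) hε.le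
            have h6 : (B : ℝ) ^ a ≤ ((A : ℝ) * B) ^ a := by
              gcongr
              nlinarith
            calc K0 * B ^ a ≤ K * ((A : ℝ) * B) ^ a := by
                  gcongr
                  exact le_max_right _ _
              _ = K * ((A : ℝ) * B) ^ a * 1 := by ring
              _ ≤ _ := by gcongr
  have hst1' : ∀ A B ρ : ℕ, 1 ≤ A → 1 ≤ ρ → ρ ≤ B → ((PP M A B).card : ℝ) ≤ (3 * B / ρ) ^ a *
        ((3 * A) ^ N + (PP M A ρ).card + D * (A ^ (a + 1) * ρ ^ (k - 1))) := by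
    intro A B ρ h1 h2 h3
    refine (hst1 A B ρ h1 h2 h3).trans ?_
    gcongr
    exact le_max_left _ _
  have hst2' : ∀ A B ρ : ℕ, 1 ≤ A → 1 ≤ ρ → ρ ≤ B → ((PP (tr M) A B).card : ℝ) ≤
      (3 * B / ρ) ^ a * ((3 * A) ^ N + (PP (tr M) A ρ).card +
        D * (A ^ (a + 1) * ρ ^ (k - 1))) := by
    intro A B ρ h1 h2 h3
    refine (hst2 A B ρ h1 h2 h3).trans ?_
    gcongr
    exact le_max_right _ _
  refine ⟨K, hK0', ?_⟩
  have key : ∀ n : ℕ, ∀ A B : ℕ, A + B ≤ n → 1 ≤ A → 1 ≤ B →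
      ((PP M A B).card : ℝ) ≤ K * ((A : ℝ) * B) ^ a * ((A : ℝ) * B) ^ ε := by
    intro n
    induction n with
    | zero =>
      intro A B h h1 h2
      omega
    | succ n ih =>
      intro A B h h1 h2
      rcases le_total A B with hAB | hAB
      · apply half M hst1' A B h1 hAB
        intro ρ hρ hρA
        exact ih A ρ (by omega) h1 hρ
      · rw [card_PP_tr, mul_comm (A : ℝ) B]
        apply half (tr M) hst2' B A h2 hAB
        intro ρ hρ hρB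
        rw [card_PP_tr, tr_tr, mul_comm (B : ℝ) ρ]
        exact ih ρ B (by omega) hρ h2
  intro A B h1 h2
  exact key (A + B) A B le_rfl h1 h2

end Pool.Agent.H548.BL
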