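import Mathlib
import Pool.Agent.H548.BL.Core

/-! From boxes to heights. -/

namespace Pool.Agent.H548.BL

open Finset Module Matrix
open Pool.Agent.H548.WM (ht bx mem_bx dy dy_spec ht_pos Rep)

/-- The infimum of all `t` such that `t L + K` is in the cone generated by `(1,0)` and `(0,1)`,
where `L = (l 0, l 1)` and `K = (-c,-c)`. -/
noncomputable def fuj (c : ℕ) (l : Fin 2 → ℝ) : ℝ := sInf {t : ℝ | ∀ i, 0 ≤ t * l i - c}

theorem fuj_eq (c : ℕ) (l : Fin 2 → ℝ) (hl : ∀ i, 0 < l i) :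
    fuj c l = max (c / l 0) (c / l 1) := by
  unfold fuj
  have : {t : ℝ | ∀ i, 0 ≤ t * l i - c} = Set.Ici (max (c / l 0) (c / l 1)) := by
    ext t
    rw [Set.mem_ofPred_eq, Set.mem_Ici, max_le_iff, div_le_iff₀ (hl 0), div_le_iff₀ (hl 1),
      Fin.forall_fin_two]
    constructor
    · rintro ⟨h0, h1⟩
      exact ⟨by linarith, by linarith⟩
    · rintro ⟨h0, h1⟩
      exact ⟨by linarith, by linarith⟩
  rw [this]
  exact csInf_Ici

theorem rep_ne {m : ℕ} {v : Fin m → ℤ} (h : Rep v) : v ≠ 0 := by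
  rintro rfl
  obtain ⟨-, i, hi, -⟩ := h
  simp at hi

/-- The logarithm of the number of dyadic classes. -/
theorem log_bound (l T : ℝ) (hl : 0 < l) (hT : 1 ≤ T) (δ : ℝ) (hδ : 0 < δ) (X : ℕ)
    (hX1 : 1 ≤ X) (hX : (X : ℝ) ≤ T ^ (1 / l)) :
    ((Nat.log 2 (2 * X) : ℝ) + 1) ≤ (2 + 1 / (l * Real.log 2)) * (1 + 1 / δ) * T ^ δ := by
  have hT0 : 0 < T := by linarith
  have hlog2 : 0 < Real.log 2 := Real.log_pos (by norm_num)
  have hlT : 0 ≤ Real.log T := Real.log_nonneg hT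
  set L := Nat.log 2 (2 * X) with hL
  have h1 : ((2 : ℝ) ^ L) ≤ 2 * X := by
    have := Nat.pow_log_le_self 2 (show 2 * X ≠ 0 by omega)
    exact_mod_cast this
  have h3 : (L : ℝ) * Real.log 2 ≤ Real.log 2 + (1 / l) * Real.log T := by
    have h4 : Real.log ((2 : ℝ) ^ L) ≤ Real.log (2 * T ^ (1 / l)) :=
      Real.log_le_log (by positivity) (h1.trans (by gcongr))
    rw [Real.log_pow, Real.log_mul (by norm_num) (by positivity), Real.log_rpow hT0] at h4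
    exact h4
  have h4 : (L : ℝ) ≤ 1 + (1 / l) * Real.log T / Real.log 2 := by
    rw [← sub_le_iff_le_add', le_div_iff₀ hlog2]
    linarith
  have h5 : (1 / l) * Real.log T / Real.log 2 = 1 / (l * Real.log 2) * Real.log T := by
    field_simp
  rw [h5] at h4
  have h6 : 0 ≤ 1 / (l * Real.log 2) := by positivity
  have h7 : (L : ℝ) + 1 ≤ (2 + 1 / (l * Real.log 2)) * (1 + Real.log T) := by nlinarith
  have h8 : Real.log T ≤ T ^ δ / δ := Real.log_le_rpow_div (by positivity) hδ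
  have h9 : (1 : ℝ) ≤ T ^ δ := Real.one_le_rpow hT hδ.le
  have h10 : 1 + Real.log T ≤ (1 + 1 / δ) * T ^ δ := by
    have : (1 + 1 / δ) * T ^ δ = T ^ δ + T ^ δ / δ := by ring
    rw [this]
    linarith
  calc (L : ℝ) + 1 ≤ (2 + 1 / (l * Real.log 2)) * (1 + Real.log T) := h7
    _ ≤ (2 + 1 / (l * Real.log 2)) * ((1 + 1 / δ) * T ^ δ) := by gcongr
    _ = _ := by ring

/-- The comparison of the heights. -/
theorem compare (x y l0 l1 t T : ℝ) (a : ℕ) (hx : 1 ≤ x) (hy : 1 ≤ y) (ht : 0 ≤ t)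
    (h0 : a ≤ t * l0) (h1 : a ≤ t * l1) (hT : x ^ l0 * y ^ l1 ≤ T) :
    (x * y) ^ a ≤ T ^ t := by
  have x0 : 0 < x := by linarith
  have y0 : 0 < y := by linarith
  have hH : (x ^ l0 * y ^ l1) ^ t ≤ T ^ t := Real.rpow_le_rpow (by positivity) hT ht
  have hHe : (x ^ l0 * y ^ l1) ^ t = x ^ (t * l0) * y ^ (t * l1) := by
    rw [Real.mul_rpow (by positivity) (by positivity), ← Real.rpow_mul x0.le,
      ← Real.rpow_mul y0.le]
    simp only [mul_comm]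
  rw [mul_pow, ← Real.rpow_natCast x a, ← Real.rpow_natCast y a]
  calc x ^ (a : ℝ) * y ^ (a : ℝ) ≤ x ^ (t * l0) * y ^ (t * l1) := by
        gcongr
    _ ≤ T ^ t := by rw [← hHe]; exact hH

open Classical in
/-- The upper bound for all line bundles. -/
theorem upper {k N : ℕ} (M : Fin k → Matrix (Fin N) (Fin N) ℤ) (hkN : k < N)
    (hbox : ∀ ε : ℝ, 0 < ε → ∃ K : ℝ, 0 ≤ K ∧ ∀ A B : ℕ, 1 ≤ A → 1 ≤ B →
      ((PP M A B).card : ℝ) ≤ K * ((A : ℝ) * B) ^ (N - k) * ((A : ℝ) * B) ^ ε)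
    (l : Fin 2 → ℝ) (hl : ∀ i, 0 < l i) (ε : ℝ) (hε : 0 < ε) :
    ∃ C : ℝ, ∀ T : ℝ, 1 ≤ T →
      {t : (Fin N → ℤ) × (Fin N → ℤ) | Rep t.1 ∧ Rep t.2 ∧ Inc M t.1 t.2 ∧
        LinearIndependent ℤ (rv M t.1) ∧ LinearIndependent ℤ (cv M t.2) ∧
        (ht t.1 : ℝ) ^ l 0 * (ht t.2 : ℝ) ^ l 1 ≤ T}.Finite ∧
      ({t : (Fin N → ℤ) × (Fin N → ℤ) | Rep t.1 ∧ Rep t.2 ∧ Inc M t.1 t.2 ∧
        LinearIndependent ℤ (rv M t.1) ∧ LinearIndependent ℤ (cv M t.2) ∧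
        (ht t.1 : ℝ) ^ l 0 * (ht t.2 : ℝ) ^ l 1 ≤ T}.ncard : ℝ) ≤ C * T ^ (fuj (N - k) l + ε) := by
  have hfuj := fuj_eq (N - k) l hl
  set c := N - k with hc
  have hc1 : 1 ≤ c := by omega
  have hc0 : (0 : ℝ) < c := by exact_mod_cast hc1
  have l0 := hl 0
  have l1 := hl 1
  set a := fuj c l with ha
  have ha0 : (c : ℝ) ≤ a * l 0 := by
    have h1 : c / l 0 ≤ a := by rw [hfuj]; exact le_max_left _ _
    rwa [div_le_iff₀ l0] at h1
  have ha1 : (c : ℝ) ≤ a * l 1 := by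
    have h1 : c / l 1 ≤ a := by rw [hfuj]; exact le_max_right _ _
    rwa [div_le_iff₀ l1] at h1
  have hapos : 0 < a := by
    have h1 : c / l 0 ≤ a := by rw [hfuj]; exact le_max_left _ _
    have : 0 < (c : ℝ) / l 0 := by positivity
    linarith
  -- the small exponents
  set ε' : ℝ := ε * c / (2 * a) with hε'
  have hε'0 : 0 < ε' := by positivity
  obtain ⟨K, hK0, hK⟩ := hbox ε' hε'0
  set C0 : ℝ := (2 + 1 / (l 0 * Real.log 2)) * (1 + 1 / (ε / 4)) with hC0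
  set C1 : ℝ := (2 + 1 / (l 1 * Real.log 2)) * (1 + 1 / (ε / 4)) with hC1
  have hlog2 : 0 < Real.log 2 := Real.log_pos (by norm_num)
  have hC00 : 0 ≤ C0 := by positivity
  have hC10 : 0 ≤ C1 := by positivity
  refine ⟨C0 * C1 * (K * 4 ^ c * 4 ^ ε'), ?_⟩
  intro T hT
  have hT0 : 0 < T := by linarith
  set X0 := ⌊T ^ (1 / l 0)⌋₊ with hX0
  set X1 := ⌊T ^ (1 / l 1)⌋₊ with hX1
  have hTl0 : (1 : ℝ) ≤ T ^ (1 / l 0) := Real.one_le_rpow hT (by positivity)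
  have hTl1 : (1 : ℝ) ≤ T ^ (1 / l 1) := Real.one_le_rpow hT (by positivity)
  have hX01 : 1 ≤ X0 := by
    rw [hX0, Nat.one_le_floor_iff]
    exact hTl0
  have hX11 : 1 ≤ X1 := by
    rw [hX1, Nat.one_le_floor_iff]
    exact hTl1
  set P : Finset ((Fin N → ℤ) × (Fin N → ℤ)) := ((bx N X0) ×ˢ (bx N X1)).filter
    fun t => Rep t.1 ∧ Rep t.2 ∧ Inc M t.1 t.2 ∧
      LinearIndependent ℤ (rv M t.1) ∧ LinearIndependent ℤ (cv M t.2) ∧
      (ht t.1 : ℝ) ^ l 0 * (ht t.2 : ℝ) ^ l 1 ≤ T with hP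
  have hroot : ∀ (n : ℕ) (s : ℝ), 0 < s → (n : ℝ) ^ s ≤ T → n ≤ ⌊T ^ (1 / s)⌋₊ := by
    intro n s hs h
    apply Nat.le_floor
    have e3 : ((n : ℝ) ^ s) ^ (1 / s) ≤ T ^ (1 / s) :=
      Real.rpow_le_rpow (by positivity) h (by positivity)
    rwa [← Real.rpow_mul (by positivity), mul_one_div_cancel hs.ne', Real.rpow_one] at e3
  have hset : {t : (Fin N → ℤ) × (Fin N → ℤ) | Rep t.1 ∧ Rep t.2 ∧ Inc M t.1 t.2 ∧
      LinearIndependent ℤ (rv M t.1) ∧ LinearIndependent ℤ (cv M t.2) ∧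
      (ht t.1 : ℝ) ^ l 0 * (ht t.2 : ℝ) ^ l 1 ≤ T} = ↑P := by
    ext t
    rw [hP, mem_coe, mem_filter, mem_product, mem_bx, mem_bx]
    constructor
    · rintro ⟨h1, h2, h3, h4, h5, h6⟩
      have n0 : (1 : ℝ) ≤ ht t.1 := by exact_mod_cast ht_pos (rep_ne h1)
      have n1 : (1 : ℝ) ≤ ht t.2 := by exact_mod_cast ht_pos (rep_ne h2)
      have e1 : (1 : ℝ) ≤ (ht t.1 : ℝ) ^ l 0 := Real.one_le_rpow n0 l0.le
      have e2 : (1 : ℝ) ≤ (ht t.2 : ℝ) ^ l 1 := Real.one_le_rpow n1 l1.le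
      refine ⟨⟨hroot _ _ l0 (by nlinarith), hroot _ _ l1 (by nlinarith)⟩, h1, h2, h3, h4, h5, h6⟩
    · rintro ⟨-, h⟩
      exact h
  rw [hset]
  refine ⟨P.finite_toSet, ?_⟩
  rw [Set.ncard_coe_finset]
  set L0 := Nat.log 2 (2 * X0) with hL0
  set L1 := Nat.log 2 (2 * X1) with hL1
  have hcov : P ⊆ ((range (L0 + 1)) ×ˢ (range (L1 + 1))).biUnion fun j =>
      P.filter fun t => dy t.1 = j.1 ∧ dy t.2 = j.2 := by
    intro t ht'
    have ht'' := ht'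
    rw [hP, mem_filter, mem_product, mem_bx, mem_bx] at ht''
    obtain ⟨⟨hx, hy⟩, h1, h2, -⟩ := ht''
    rw [mem_biUnion]
    refine ⟨(dy t.1, dy t.2), ?_, ?_⟩
    · rw [mem_product, mem_range, mem_range]
      constructor
      · apply Nat.lt_succ_of_le
        apply Nat.le_log_of_pow_le (by norm_num)
        exact ((dy_spec (ht_pos (rep_ne h1))).2).trans (Nat.mul_le_mul_left _ hx)
      · apply Nat.lt_succ_of_le
        apply Nat.le_log_of_pow_le (by norm_num)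
        exact ((dy_spec (ht_pos (rep_ne h2))).2).trans (Nat.mul_le_mul_left _ hy)
    · rw [mem_filter]
      exact ⟨ht', rfl, rfl⟩
  have hlev : ∀ j ∈ (range (L0 + 1)) ×ˢ (range (L1 + 1)),
      (((P.filter fun t => dy t.1 = j.1 ∧ dy t.2 = j.2).card : ℕ) : ℝ) ≤
      K * 4 ^ c * 4 ^ ε' * T ^ (a + ε / 2) := by
    intro j _
    set Q := P.filter fun t => dy t.1 = j.1 ∧ dy t.2 = j.2 with hQ
    rcases Q.eq_empty_or_nonempty with h0 | ⟨s, hs⟩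
    · rw [h0]
      simp only [card_empty, Nat.cast_zero]
      positivity
    have hmem : ∀ t ∈ Q, (Rep t.1 ∧ Rep t.2 ∧ Inc M t.1 t.2 ∧
        LinearIndependent ℤ (rv M t.1) ∧ LinearIndependent ℤ (cv M t.2) ∧
        (ht t.1 : ℝ) ^ l 0 * (ht t.2 : ℝ) ^ l 1 ≤ T) ∧ dy t.1 = j.1 ∧ dy t.2 = j.2 := by
      intro t ht'
      rw [hQ, mem_filter, hP, mem_filter] at ht'
      exact ⟨ht'.1.2, ht'.2⟩
    have hsub : Q ⊆ PP M (2 ^ j.1) (2 ^ j.2) := by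
      intro t ht'
      obtain ⟨⟨t1, t2, t3, t4, t5, t6⟩, t7, t8⟩ := hmem t ht'
      have d1 := (dy_spec (ht_pos (rep_ne t1))).1
      have d2 := (dy_spec (ht_pos (rep_ne t2))).1
      rw [t7] at d1
      rw [t8] at d2
      unfold PP
      rw [mem_filter, mem_product, mem_filter, mem_bx, mem_bx]
      exact ⟨⟨⟨d1, t4⟩, d2⟩, t3, t5⟩
    obtain ⟨⟨s1, s2, s3, s4, s5, s6⟩, s7, s8⟩ := hmem s hs
    have n0 : 1 ≤ ht s.1 := ht_pos (rep_ne s1)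
    have n1 : 1 ≤ ht s.2 := ht_pos (rep_ne s2)
    have n0' : (1 : ℝ) ≤ ht s.1 := by exact_mod_cast n0
    have n1' : (1 : ℝ) ≤ ht s.2 := by exact_mod_cast n1
    have h3 := (dy_spec n0).2
    have h4 := (dy_spec n1).2
    rw [s7] at h3
    rw [s8] at h4
    have h3' : ((2 ^ j.1 : ℕ) : ℝ) ≤ 2 * ht s.1 := by exact_mod_cast h3
    have h4' : ((2 ^ j.2 : ℕ) : ℝ) ≤ 2 * ht s.2 := by exact_mod_cast h4
    have h5 := compare (ht s.1) (ht s.2) (l 0) (l 1) a T c n0' n1' hapos.le ha0 ha1 s6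
    have hxy : (0 : ℝ) ≤ (ht s.1 : ℝ) * ht s.2 := by positivity
    have hxy1 : (1 : ℝ) ≤ (ht s.1 : ℝ) * ht s.2 := by nlinarith
    have h6 : ((ht s.1 : ℝ) * ht s.2) ^ ε' ≤ T ^ (ε / 2) := by
      have e1 : ((ht s.1 : ℝ) * ht s.2) ^ ε' = (((ht s.1 : ℝ) * ht s.2) ^ c) ^ (ε' / c) := by
        rw [← Real.rpow_natCast, ← Real.rpow_mul hxy]
        congr 1
        field_simp
      have e2 : a * (ε' / c) = ε / 2 := by
        rw [hε']
        field_simp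
      rw [e1, ← e2, Real.rpow_mul hT0.le]
      exact Real.rpow_le_rpow (by positivity) h5 (by positivity)
    have h7 : ((2 ^ j.1 : ℕ) : ℝ) * ((2 ^ j.2 : ℕ) : ℝ) ≤ 4 * ((ht s.1 : ℝ) * ht s.2) := by
      calc ((2 ^ j.1 : ℕ) : ℝ) * ((2 ^ j.2 : ℕ) : ℝ) ≤ (2 * ht s.1) * (2 * ht s.2) := by gcongr
        _ = _ := by ring
    calc (Q.card : ℝ) ≤ ((PP M (2 ^ j.1) (2 ^ j.2)).card : ℝ) := by
          exact_mod_cast card_le_card hsub
      _ ≤ K * (((2 ^ j.1 : ℕ) : ℝ) * ((2 ^ j.2 : ℕ) : ℝ)) ^ c *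
          (((2 ^ j.1 : ℕ) : ℝ) * ((2 ^ j.2 : ℕ) : ℝ)) ^ ε' :=
          hK _ _ Nat.one_le_two_pow Nat.one_le_two_pow
      _ ≤ K * (4 * ((ht s.1 : ℝ) * ht s.2)) ^ c * (4 * ((ht s.1 : ℝ) * ht s.2)) ^ ε' := by
          gcongr
      _ = K * 4 ^ c * 4 ^ ε' * (((ht s.1 : ℝ) * ht s.2) ^ c * ((ht s.1 : ℝ) * ht s.2) ^ ε') := by
          rw [mul_pow, Real.mul_rpow (by norm_num) hxy]
          ring
      _ ≤ K * 4 ^ c * 4 ^ ε' * (T ^ a * T ^ (ε / 2)) := by gcongr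
      _ = K * 4 ^ c * 4 ^ ε' * T ^ (a + ε / 2) := by rw [Real.rpow_add hT0]
  have hb0 := log_bound (l 0) T l0 hT (ε / 4) (by positivity) X0 hX01 (Nat.floor_le (by positivity))
  have hb1 := log_bound (l 1) T l1 hT (ε / 4) (by positivity) X1 hX11 (Nat.floor_le (by positivity))
  calc (P.card : ℝ) ≤ ∑ j ∈ (range (L0 + 1)) ×ˢ (range (L1 + 1)),
      (((P.filter fun t => dy t.1 = j.1 ∧ dy t.2 = j.2).card : ℕ) : ℝ) := by
        have h1 := (Finset.card_le_card hcov).trans Finset.card_biUnion_le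
        exact_mod_cast h1
    _ ≤ ∑ j ∈ (range (L0 + 1)) ×ˢ (range (L1 + 1)), K * 4 ^ c * 4 ^ ε' * T ^ (a + ε / 2) :=
        Finset.sum_le_sum hlev
    _ = ((L0 : ℝ) + 1) * ((L1 : ℝ) + 1) * (K * 4 ^ c * 4 ^ ε' * T ^ (a + ε / 2)) := by
        rw [Finset.sum_const, card_product, card_range, card_range, nsmul_eq_mul]
        push_cast
        ring
    _ ≤ (C0 * T ^ (ε / 4)) * (C1 * T ^ (ε / 4)) * (K * 4 ^ c * 4 ^ ε' * T ^ (a + ε / 2)) := by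
        gcongr
    _ = C0 * C1 * (K * 4 ^ c * 4 ^ ε') * (T ^ (ε / 4) * T ^ (ε / 4) * T ^ (a + ε / 2)) := by ring
    _ = C0 * C1 * (K * 4 ^ c * 4 ^ ε') * T ^ (a + ε) := by
        rw [← Real.rpow_add hT0, ← Real.rpow_add hT0]
        congr 2
        ring

end Pool.Agent.H548.BL
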